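import Mathlib

namespace H775R2.RR

open Polynomial

/-- A real polynomial all of whose complex zeros are real; nonzero constants and the zero
polynomial count as real-rooted. -/
def RealRooted (p : ℝ[X]) : Prop := p = 0 ∨ ∀ z : ℂ, aeval z p = 0 → z.im = 0

/-- Apply `F` to every coefficient of `p` (coefficients of index `0, …, deg p`). -/
noncomputable def coeffMap (F : ℝ → ℝ) (p : ℝ[X]) : ℝ[X] :=
  ∑ k ∈ Finset.range (p.natDegree + 1), C (F (p.coeff k)) * X ^ k

/-- `p` is nonzero, with all coefficients of index `0, …, deg p` strictly positive. -/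
def PosCoeffs (p : ℝ[X]) : Prop := ∀ k ≤ p.natDegree, 0 < p.coeff k

/-- `F` preserves real-rootedness of polynomials with positive coefficients. -/
def Preserves (F : ℝ → ℝ) : Prop :=
  ∀ p : ℝ[X], PosCoeffs p → RealRooted p → RealRooted (coeffMap F p)

lemma coeffMap_coeff (F : ℝ → ℝ) (h0 : F 0 = 0) (p : ℝ[X]) (k : ℕ) :
    (coeffMap F p).coeff k = F (p.coeff k) := by
  unfold coeffMap
  rw [finset_sum_coeff]
  by_cases hk : k ≤ p.natDegree
  · rw [Finset.sum_eq_single k]
    · simp
    · intro b _ hb
      simp [coeff_C_mul, coeff_X_pow, Ne.symm hb]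
    · intro h
      exact absurd (Finset.mem_range.2 (by omega)) h
  · rw [Finset.sum_eq_zero]
    · rw [coeff_eq_zero_of_natDegree_lt (by omega), h0]
    · intro b hb
      have : b ≤ p.natDegree := by simpa [Nat.lt_succ_iff] using hb
      simp [coeff_C_mul, coeff_X_pow, show k ≠ b by omega]

/-- A nonzero real polynomial with only real complex zeros is a product of linear factors. -/
lemma exists_factor (P : ℝ[X]) (hP : P ≠ 0) (h : ∀ z : ℂ, aeval z P = 0 → z.im = 0) :
    ∃ s : Multiset ℝ, P = C P.leadingCoeff * (s.map (fun r => X - C r)).prod := by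
  induction hn : P.natDegree using Nat.strong_induction_on generalizing P with
  | _ n ih =>
    by_cases hd : n = 0
    · refine ⟨0, ?_⟩
      rw [hd] at hn
      rw [eq_C_of_natDegree_eq_zero hn]
      simp
    · have hdeg : (P.map (algebraMap ℝ ℂ)).degree ≠ 0 := by
        rw [degree_map]
        intro h0
        exact hd (hn ▸ natDegree_eq_of_degree_eq_some h0)
      obtain ⟨z, hz⟩ := IsAlgClosed.exists_root _ hdeg
      have hz' : aeval z P = 0 := by
        rw [IsRoot.def, eval_map] at hz
        simpa [aeval_def] using hz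
      have him := h z hz'
      have hre : (z.re : ℂ) = z := Complex.ext (by simp) (by simp [him])
      have hroot : P.eval z.re = 0 := by
        have : aeval ((z.re : ℝ) : ℂ) P = 0 := by rw [hre]; exact hz'
        have h2 : aeval ((algebraMap ℝ ℂ) z.re) P = algebraMap ℝ ℂ (P.eval z.re) :=
          aeval_algebraMap_apply_eq_algebraMap_eval z.re P
        have h3 : ((P.eval z.re : ℝ) : ℂ) = 0 := by
          rw [← Complex.coe_algebraMap, ← h2]; simpa using this
        exact_mod_cast h3
      obtain ⟨Q, hQ⟩ := dvd_iff_isRoot.2 hroot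
      have hQ0 : Q ≠ 0 := by rintro rfl; simp at hQ; exact hP hQ
      have hmon : (X - C z.re : ℝ[X]) ≠ 0 := X_sub_C_ne_zero _
      have hdQ : Q.natDegree < n := by
        have : P.natDegree = (X - C z.re : ℝ[X]).natDegree + Q.natDegree := by
          rw [hQ, natDegree_mul hmon hQ0]
        rw [natDegree_X_sub_C] at this
        omega
      obtain ⟨s, hs⟩ := ih Q.natDegree hdQ Q hQ0 (by
        intro w hw
        apply h
        rw [hQ]; simp [hw]) rfl
      refine ⟨z.re ::ₘ s, ?_⟩
      have hlc : P.leadingCoeff = Q.leadingCoeff := by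
        rw [hQ, leadingCoeff_mul, leadingCoeff_X_sub_C, one_mul]
      rw [Multiset.map_cons, Multiset.prod_cons, hlc]
      calc P = (X - C z.re) * Q := hQ
        _ = (X - C z.re) * (C Q.leadingCoeff * (s.map (fun r => X - C r)).prod) := by rw [← hs]
        _ = _ := by ring

/-- The coefficients as a function on the integers. -/
noncomputable def cz (P : ℝ[X]) (k : ℤ) : ℝ := if 0 ≤ k then P.coeff k.toNat else 0

lemma cz_nat (P : ℝ[X]) (k : ℕ) : cz P k = P.coeff k := by simp [cz]

lemma cz_neg (P : ℝ[X]) {k : ℤ} (hk : k < 0) : cz P k = 0 := by simp [cz, not_le.2 hk]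

lemma cz_C_mul (c : ℝ) (P : ℝ[X]) (k : ℤ) : cz (C c * P) k = c * cz P k := by
  unfold cz; split_ifs <;> simp

lemma cz_mul (P : ℝ[X]) (r : ℝ) (k : ℤ) : cz ((X - C r) * P) k = cz P (k - 1) + (-r) * cz P k := by
  rcases lt_or_ge k 0 with hk | hk
  · rw [cz_neg _ hk, cz_neg _ hk, cz_neg _ (by omega)]; ring
  · obtain ⟨m, rfl⟩ := Int.eq_ofNat_of_zero_le hk
    rcases m with _ | m
    · have : cz P ((0:ℕ) - 1 : ℤ) = 0 := cz_neg _ (by simp)
      rw [this, cz_nat, cz_nat, sub_mul, coeff_sub, coeff_C_mul, coeff_X_mul_zero]; ring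
    · have : (((m + 1 : ℕ) : ℤ) - 1) = (m : ℤ) := by push_cast; ring
      rw [this, cz_nat, cz_nat, cz_nat, sub_mul, coeff_sub, coeff_C_mul, coeff_X_mul]; ring

/-- nonnegative, and all `2 × 2` Toeplitz minors nonnegative -/
def TP2 (a : ℤ → ℝ) : Prop := (∀ k, 0 ≤ a k) ∧ ∀ i j, i ≤ j → a (i - 1) * a (j + 1) ≤ a i * a j

lemma TP2.step {a : ℤ → ℝ} (h : TP2 a) {v : ℝ} (hv : 0 ≤ v) :
    TP2 (fun k => a (k - 1) + v * a k) := by
  obtain ⟨hp, h2⟩ := h
  refine ⟨fun k => by have := hp (k-1); have := hp k; positivity, ?_⟩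
  intro i j hij
  have e1 := h2 i j hij
  have e2 := h2 (i - 1) (j - 1) (by omega)
  have e3 : a (i - 1 - 1) * a (j + 1) ≤ a i * a (j - 1) := by
    rcases eq_or_lt_of_le hij with rfl | hlt
    · have := h2 (i - 1) i (by omega)
      linarith [mul_comm (a (i-1)) (a i)]
    · have k1 := h2 (i-1) j (by omega)
      have k2 := h2 i (j-1) (by omega)
      have : j - 1 + 1 = j := by ring
      rw [this] at k2
      linarith
  simp only [show j - 1 + 1 = j by ring, show j + 1 - 1 = j by ring] at *
  nlinarith [mul_nonneg hv (sub_nonneg.2 e3), mul_nonneg (mul_nonneg hv hv) (sub_nonneg.2 e1)]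

lemma TP2_prod (s : Multiset ℝ) (hs : ∀ r ∈ s, r ≤ 0) :
    TP2 (cz (s.map (fun r => X - C r)).prod) := by
  induction s using Multiset.induction_on with
  | empty =>
    simp only [Multiset.map_zero, Multiset.prod_zero]
    have key : ∀ k : ℤ, cz (1 : ℝ[X]) k = if k = 0 then 1 else 0 := by
      intro k
      rcases lt_trichotomy k 0 with hk | hk | hk
      · rw [cz_neg _ hk, if_neg (by omega)]
      · subst hk; simp [cz]
      · obtain ⟨m, rfl⟩ := Int.eq_ofNat_of_zero_le hk.le
        rw [cz_nat, if_neg (by omega), coeff_one, if_neg (by omega)]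
    refine ⟨fun k => by rw [key]; split_ifs <;> norm_num, ?_⟩
    intro i j hij
    rw [key, key, key, key]
    by_cases h1 : i - 1 = 0
    · rw [if_neg (show ¬ (j + 1 = 0) by omega)]
      simp only [mul_zero]
      split_ifs <;> norm_num
    · rw [if_neg h1]
      simp only [zero_mul]
      split_ifs <;> norm_num
  | cons r s ih =>
    rw [Multiset.map_cons, Multiset.prod_cons]
    have h1 := ih (fun x hx => hs x (Multiset.mem_cons_of_mem hx))
    have h2 := TP2.step h1 (v := -r) (by have := hs r (Multiset.mem_cons_self r s); linarith)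
    have : cz ((X - C r) * (s.map (fun r => X - C r)).prod)
        = fun k => cz (s.map (fun r => X - C r)).prod (k - 1)
          + (-r) * cz (s.map (fun r => X - C r)).prod k := by
      funext k; exact cz_mul _ _ _
    rw [this]; exact h2

/-- For a nonzero real-rooted polynomial with nonnegative coefficients. -/
lemma factor_nonneg (P : ℝ[X]) (hP : P ≠ 0) (h : RealRooted P) (hc : ∀ k, 0 ≤ P.coeff k) :
    ∃ s : Multiset ℝ, (∀ r ∈ s, r ≤ 0) ∧ 0 < P.leadingCoeff ∧
      P = C P.leadingCoeff * (s.map (fun r => X - C r)).prod := by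
  have hlc : 0 < P.leadingCoeff :=
    lt_of_le_of_ne (hc _) (Ne.symm (leadingCoeff_ne_zero.2 hP))
  obtain ⟨s, hs⟩ := exists_factor P hP (by
    rcases h with h | h
    · exact absurd h hP
    · exact h)
  refine ⟨s, ?_, hlc, hs⟩
  intro r hr
  by_contra hpos
  push Not at hpos
  have h0 : P.eval r = 0 := by
    rw [hs, eval_mul, eval_multiset_prod, Multiset.map_map]
    have : (Multiset.map ((fun p => eval r p) ∘ fun r => X - C r) s).prod = 0 := by
      apply Multiset.prod_eq_zero
      rw [Multiset.mem_map]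
      exact ⟨r, hr, by simp⟩
    simpa using Or.inr this
  have h1 : 0 < P.eval r := by
    rw [eval_eq_sum_range]
    apply Finset.sum_pos'
    · intro i _; have := hc i; positivity
    · exact ⟨P.natDegree, by simp, mul_pos hlc (by positivity)⟩
  linarith

lemma TP2_of_realRooted (P : ℝ[X]) (h : RealRooted P) (hc : ∀ k, 0 ≤ P.coeff k) :
    TP2 (cz P) := by
  by_cases hP : P = 0
  · subst hP
    have : cz (0 : ℝ[X]) = fun _ => 0 := by funext k; unfold cz; split_ifs <;> simp
    rw [this]; exact ⟨fun _ => le_rfl, fun _ _ _ => by simp⟩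
  · obtain ⟨s, hs, hlc, hPs⟩ := factor_nonneg P hP h hc
    have h1 := TP2_prod s hs
    have : cz P = fun k => P.leadingCoeff * cz (s.map (fun r => X - C r)).prod k := by
      funext k
      conv_lhs => rw [hPs]
      exact cz_C_mul _ _ _
    rw [this]
    refine ⟨fun k => mul_nonneg hlc.le (h1.1 k), fun i j hij => ?_⟩
    have := h1.2 i j hij
    have hl2 : 0 ≤ P.leadingCoeff * P.leadingCoeff := by positivity
    nlinarith [mul_le_mul_of_nonneg_left this hl2]

end H775R2.RR
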