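import Mathlib

namespace H775R2.RR

open Complex

/-- `∑ log (1 + u e^w)` -/
noncomputable def Lm (U : Multiset ℝ) (w : ℂ) : ℂ :=
  (U.map (fun u : ℝ => Complex.log (1 + u * Complex.exp w))).sum

/-- `∑ log (1 + u e^x)`, real version -/
noncomputable def Lr (U : Multiset ℝ) (x : ℝ) : ℝ :=
  (U.map (fun u : ℝ => Real.log (1 + u * Real.exp x))).sum

lemma slit {u : ℝ} (hu : 0 ≤ u) {w : ℂ} (hw : |w.im| < Real.pi) :
    1 + (u : ℂ) * Complex.exp w ∈ Complex.slitPlane := by
  rw [Complex.mem_slitPlane_iff]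
  have hre : (1 + (u : ℂ) * Complex.exp w).re = 1 + u * (Real.exp w.re * Real.cos w.im) := by
    simp [Complex.exp_re]
  have him : (1 + (u : ℂ) * Complex.exp w).im = u * (Real.exp w.re * Real.sin w.im) := by
    simp [Complex.exp_im]
  rw [hre, him]
  rcases eq_or_lt_of_le hu with h | h
  · left; rw [← h]; simp
  · by_cases hy : w.im = 0
    · left; rw [hy, Real.cos_zero]; positivity
    · right
      have hs : Real.sin w.im ≠ 0 := by
        rw [abs_lt] at hw
        rcases lt_or_gt_of_ne hy with h1 | h1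
        · exact (Real.sin_neg_of_neg_of_neg_pi_lt h1 hw.1).ne
        · exact (Real.sin_pos_of_pos_of_lt_pi h1 hw.2).ne'
      have := Real.exp_pos w.re
      positivity

/-- the constant in the comparison of `log (1 + x e^{iy})` with `log (1 + x)` -/
noncomputable def Cth (θ : ℝ) : ℝ := 1 + θ / Real.sqrt ((1 + Real.cos θ) / 2)

lemma cth_aux {θ : ℝ} (h0 : 0 ≤ θ) (hπ : θ < Real.pi) : 0 < Real.sqrt ((1 + Real.cos θ) / 2) := by
  apply Real.sqrt_pos.2
  have : Real.cos Real.pi < Real.cos θ := Real.cos_lt_cos_of_nonneg_of_le_pi h0 le_rfl hπ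
  rw [Real.cos_pi] at this
  linarith

lemma log_bound {θ x y : ℝ} (hx : 0 ≤ x) (hy0 : 0 ≤ y) (hyθ : y ≤ θ) (hπ : θ < Real.pi) :
    ‖Complex.log (1 + x * Complex.exp (y * I))‖ ≤ Cth θ * Real.log (1 + x) := by
  have hθ0 : 0 ≤ θ := hy0.trans hyθ
  set c := Real.sqrt ((1 + Real.cos θ) / 2) with hc
  have hc0 : 0 < c := cth_aux hθ0 hπ
  have hcsq : c ^ 2 = (1 + Real.cos θ) / 2 := by
    rw [hc, Real.sq_sqrt]; have := Real.neg_one_le_cos θ; linarith
  have hslit : ∀ t ∈ Set.Icc (0 : ℝ) y, (1 + (x : ℂ) * Complex.exp (t * I)) ∈ Complex.slitPlane := by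
    intro t ht
    apply slit hx
    simp only [mul_im, ofReal_re, I_im, mul_one, ofReal_im, I_re, mul_zero, add_zero]
    rw [abs_of_nonneg ht.1]; linarith [ht.2]
  have hlow : ∀ t ∈ Set.Icc (0 : ℝ) y, c * (1 + x) ≤ ‖1 + (x : ℂ) * Complex.exp (t * I)‖ := by
    intro t ht
    have hn : ‖1 + (x : ℂ) * Complex.exp (t * I)‖ ^ 2 = 1 + 2 * x * Real.cos t + x ^ 2 := by
      rw [← Complex.normSq_eq_norm_sq, Complex.normSq_apply]
      have e1 : (1 + (x : ℂ) * Complex.exp (t * I)).re = 1 + x * Real.cos t := by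
        simp [Complex.exp_re]
      have e2 : (1 + (x : ℂ) * Complex.exp (t * I)).im = x * Real.sin t := by
        simp [Complex.exp_im]
      rw [e1, e2]
      nlinarith [Real.sin_sq_add_cos_sq t]
    have hcos : Real.cos θ ≤ Real.cos t :=
      Real.cos_le_cos_of_nonneg_of_le_pi ht.1 hπ.le (ht.2.trans hyθ)
    apply le_of_sq_le_sq _ (norm_nonneg _)
    rw [hn, mul_pow, hcsq]
    have h1 := Real.cos_le_one t
    nlinarith [mul_nonneg (sq_nonneg (1 - x)) (sub_nonneg.2 h1),
      mul_nonneg (sq_nonneg (1 + x)) (sub_nonneg.2 hcos)]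
  have hder : ∀ t ∈ Set.Icc (0 : ℝ) y, HasDerivWithinAt
      (fun t : ℝ => Complex.log (1 + (x : ℂ) * Complex.exp (t * I)))
      ((x * (Complex.exp (t * I) * I)) / (1 + (x : ℂ) * Complex.exp (t * I))) (Set.Icc 0 y) t := by
    intro t ht
    have h1 : HasDerivAt (fun t : ℝ => (t : ℂ) * I) I t := by
      simpa using (Complex.ofRealCLM.hasDerivAt (x := t)).mul_const I
    have h2 : HasDerivAt (fun t : ℝ => 1 + (x : ℂ) * Complex.exp (t * I))
        (x * (Complex.exp (t * I) * I)) t := by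
      simpa using (h1.cexp.const_mul (x : ℂ)).const_add 1
    exact (h2.clog_real (hslit t ht)).hasDerivWithinAt
  have hbound : ∀ t ∈ Set.Ico (0 : ℝ) y,
      ‖(x * (Complex.exp (t * I) * I)) / (1 + (x : ℂ) * Complex.exp (t * I))‖
        ≤ x / (c * (1 + x)) := by
    intro t ht
    rw [norm_div]
    have e : ‖(x : ℂ) * (Complex.exp (t * I) * I)‖ = x := by
      rw [norm_mul, norm_mul, Complex.norm_exp_ofReal_mul_I, Complex.norm_I, Complex.norm_real,
        Real.norm_of_nonneg hx]; ring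
    rw [e]
    exact div_le_div_of_nonneg_left hx (by positivity) (hlow t ⟨ht.1, ht.2.le⟩)
  have hmv := norm_image_sub_le_of_norm_deriv_le_segment' hder hbound y ⟨hy0, le_rfl⟩
  have h0 : Complex.log (1 + (x : ℂ) * Complex.exp ((0 : ℝ) * I)) = ((Real.log (1 + x) : ℝ) : ℂ) := by
    rw [Complex.ofReal_log (by positivity)]; simp
  simp only [h0, sub_zero] at hmv
  have hlog0 : 0 ≤ Real.log (1 + x) := Real.log_nonneg (by linarith)
  have hx1 : x / (1 + x) ≤ Real.log (1 + x) := by
    have := Real.one_sub_inv_le_log_of_pos (show 0 < 1 + x by linarith)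
    have e : x / (1 + x) = 1 - (1 + x)⁻¹ := by field_simp; ring
    rw [e]; exact this
  have h3 : ‖Complex.log (1 + (x : ℂ) * Complex.exp (y * I))‖
      ≤ Real.log (1 + x) + x / (c * (1 + x)) * y := by
    have := norm_le_insert' (Complex.log (1 + (x : ℂ) * Complex.exp (y * I)))
      (((Real.log (1 + x) : ℝ) : ℂ))
    rw [Complex.norm_real, Real.norm_of_nonneg hlog0] at this
    linarith
  refine h3.trans ?_
  have h4 : x / (c * (1 + x)) * y ≤ θ / c * Real.log (1 + x) := by
    have e : x / (c * (1 + x)) * y = (y / c) * (x / (1 + x)) := by field_simp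
    rw [e]
    apply mul_le_mul _ hx1 (by positivity) (by positivity)
    exact div_le_div_of_nonneg_right hyθ hc0.le
  rw [Cth, ← hc]
  linarith

lemma Lm_diff (U : Multiset ℝ) (hU : ∀ u ∈ U, 0 ≤ u) {w : ℂ} (hw : |w.im| < Real.pi) :
    DifferentiableAt ℂ (Lm U) w := by
  induction U using Multiset.induction_on with
  | empty =>
    have : Lm 0 = fun _ => 0 := by funext; simp [Lm]
    rw [this]; exact differentiableAt_const _
  | cons u U ih =>
    have h1 := ih (fun y hy => hU y (Multiset.mem_cons_of_mem hy))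
    have : Lm (u ::ₘ U) = fun w => Complex.log (1 + u * Complex.exp w) + Lm U w := by
      funext; simp [Lm]
    rw [this]
    apply DifferentiableAt.add _ h1
    apply DifferentiableAt.clog
    · fun_prop
    · exact slit (hU u (Multiset.mem_cons_self u U)) hw

lemma Lm_real (U : Multiset ℝ) (hU : ∀ u ∈ U, 0 ≤ u) (x : ℝ) : Lm U x = Lr U x := by
  induction U using Multiset.induction_on with
  | empty => simp [Lm, Lr]
  | cons u U ih =>
    have h1 := ih (fun y hy => hU y (Multiset.mem_cons_of_mem hy))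
    have hu := hU u (Multiset.mem_cons_self u U)
    have e1 : Lm (u ::ₘ U) x = Complex.log (1 + u * Complex.exp x) + Lm U x := by simp [Lm]
    have e2 : Lr (u ::ₘ U) x = Real.log (1 + u * Real.exp x) + Lr U x := by simp [Lr]
    rw [e1, e2, h1]
    push_cast
    rw [Complex.ofReal_log (by have := Real.exp_pos x; positivity)]
    push_cast; rfl

lemma Lr_nonneg (U : Multiset ℝ) (hU : ∀ u ∈ U, 0 ≤ u) (x : ℝ) : 0 ≤ Lr U x := by
  induction U using Multiset.induction_on with
  | empty => simp [Lr]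
  | cons u U ih =>
    have h1 := ih (fun y hy => hU y (Multiset.mem_cons_of_mem hy))
    have hu := hU u (Multiset.mem_cons_self u U)
    have e2 : Lr (u ::ₘ U) x = Real.log (1 + u * Real.exp x) + Lr U x := by simp [Lr]
    rw [e2]
    have : 0 ≤ Real.log (1 + u * Real.exp x) :=
      Real.log_nonneg (by have := Real.exp_pos x; nlinarith [mul_nonneg hu this.le])
    linarith

lemma Cth_nonneg {θ : ℝ} (h0 : 0 ≤ θ) : 0 ≤ Cth θ := by
  unfold Cth; positivity

lemma Lm_bound (U : Multiset ℝ) (hU : ∀ u ∈ U, 0 ≤ u) {θ x y : ℝ} (hy0 : 0 ≤ y) (hyθ : y ≤ θ)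
    (hπ : θ < Real.pi) : ‖Lm U (x + y * I)‖ ≤ Cth θ * Lr U x := by
  induction U using Multiset.induction_on with
  | empty => simp [Lm, Lr]
  | cons u U ih =>
    have h1 := ih (fun y hy => hU y (Multiset.mem_cons_of_mem hy))
    have hu := hU u (Multiset.mem_cons_self u U)
    have e1 : Lm (u ::ₘ U) (x + y * I) = Complex.log (1 + u * Complex.exp (x + y * I))
      + Lm U (x + y * I) := by simp [Lm]
    have e2 : Lr (u ::ₘ U) x = Real.log (1 + u * Real.exp x) + Lr U x := by simp [Lr]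
    rw [e1, e2]
    have h2 := log_bound (θ := θ) (x := u * Real.exp x) (y := y)
      (by have := Real.exp_pos x; positivity) hy0 hyθ hπ
    have e3 : (1 : ℂ) + ((u * Real.exp x : ℝ) : ℂ) * Complex.exp (y * I)
        = 1 + u * Complex.exp (x + y * I) := by
      rw [Complex.exp_add]; push_cast; ring
    rw [e3] at h2
    calc _ ≤ ‖Complex.log (1 + u * Complex.exp (x + y * I))‖ + ‖Lm U (x + y * I)‖ := norm_add_le _ _
      _ ≤ _ := by linarith

lemma exp_Lm (U : Multiset ℝ) (hU : ∀ u ∈ U, 0 ≤ u) {w : ℂ} (hw : |w.im| < Real.pi) :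
    Complex.exp (Lm U w) = (U.map (fun u : ℝ => 1 + (u : ℂ) * Complex.exp w)).prod := by
  induction U using Multiset.induction_on with
  | empty => simp [Lm]
  | cons u U ih =>
    have h1 := ih (fun y hy => hU y (Multiset.mem_cons_of_mem hy))
    have hu := hU u (Multiset.mem_cons_self u U)
    have e1 : Lm (u ::ₘ U) w = Complex.log (1 + u * Complex.exp w) + Lm U w := by simp [Lm]
    rw [e1, Complex.exp_add, h1, Complex.exp_log (Complex.slitPlane_ne_zero (slit hu hw)),
      Multiset.map_cons, Multiset.prod_cons]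

lemma exp_Lr (U : Multiset ℝ) (hU : ∀ u ∈ U, 0 ≤ u) (x : ℝ) :
    Real.exp (Lr U x) = (U.map (fun u : ℝ => 1 + u * Real.exp x)).prod := by
  induction U using Multiset.induction_on with
  | empty => simp [Lr]
  | cons u U ih =>
    have h1 := ih (fun y hy => hU y (Multiset.mem_cons_of_mem hy))
    have hu := hU u (Multiset.mem_cons_self u U)
    have e1 : Lr (u ::ₘ U) x = Real.log (1 + u * Real.exp x) + Lr U x := by simp [Lr]
    rw [e1, Real.exp_add, h1, Real.exp_log (by have := Real.exp_pos x; positivity),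
      Multiset.map_cons, Multiset.prod_cons]

/-- values on the negative axis are dominated by values on any ray -/
lemma neg_le_ray (U : Multiset ℝ) (hU : ∀ u ∈ U, 0 ≤ u) {s θ : ℝ} (hθ : |θ| < Real.pi) :
    |(U.map (fun u : ℝ => 1 - u * Real.exp s)).prod| ≤ Real.exp (Lm U (s + θ * I)).re := by
  have hw : |((s : ℂ) + θ * I).im| < Real.pi := by simpa using hθ
  rw [← Complex.norm_exp, exp_Lm U hU hw]
  induction U using Multiset.induction_on with
  | empty => simp
  | cons u U ih =>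
    have h1 := ih (fun y hy => hU y (Multiset.mem_cons_of_mem hy))
    have hu := hU u (Multiset.mem_cons_self u U)
    rw [Multiset.map_cons, Multiset.prod_cons, Multiset.map_cons, Multiset.prod_cons, abs_mul,
      norm_mul]
    apply mul_le_mul _ h1 (abs_nonneg _) (norm_nonneg _)
    apply le_of_sq_le_sq _ (norm_nonneg _)
    rw [sq_abs, ← Complex.normSq_eq_norm_sq, Complex.normSq_apply]
    have e1 : (1 + (u : ℂ) * Complex.exp (s + θ * I)).re = 1 + u * (Real.exp s * Real.cos θ) := by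
      simp [Complex.exp_re]
    have e2 : (1 + (u : ℂ) * Complex.exp (s + θ * I)).im = u * (Real.exp s * Real.sin θ) := by
      simp [Complex.exp_im]
    rw [e1, e2]
    have hc := Real.neg_one_le_cos θ
    have hp : 0 ≤ u * Real.exp s := by positivity
    nlinarith [Real.sin_sq_add_cos_sq θ, mul_nonneg hp (show (0:ℝ) ≤ 1 + Real.cos θ by linarith)]

open HadamardThreeLines in
theorem strip_bound {α ρ θ1 θ2 : ℝ} (hα : 0 < α) (hρ0 : 0 < ρ) (hρ1 : ρ ≤ 1) (h1 : 0 < θ1)
    (h12 : θ1 < θ2) (h2 : θ2 < Real.pi) (U : Multiset ℝ) (hU : ∀ u ∈ U, 0 ≤ u) (s0 a : ℝ)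
    (hup : ∀ x : ℝ, Lr U x ≤ α * Real.exp (ρ * x))
    (hlo : ∀ v : ℝ, |Lr U (s0 + v) - α * Real.exp (ρ * (s0 + v))| * Real.exp (-v ^ 2) ≤ a) :
    ‖Lm U (s0 + θ1 * I) - α * Complex.exp (ρ * (s0 + θ1 * I))‖
      ≤ a ^ (1 - θ1 / θ2) * ((Cth θ2 + 1) * α * Real.exp (1 + θ2 ^ 2) * Real.exp (ρ * s0)) ^ (θ1 / θ2) := by
  have hθ2 : 0 < θ2 := h1.trans h12
  set B : ℝ := (Cth θ2 + 1) * α * Real.exp (1 + θ2 ^ 2) * Real.exp (ρ * s0) with hB
  have hC : 0 ≤ Cth θ2 := Cth_nonneg hθ2.le
  set f : ℂ → ℂ := fun z =>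
    (Lm U (s0 + z * I) - α * Complex.exp (ρ * (s0 + z * I))) * Complex.exp (z ^ 2) with hf
  -- a pointwise formula
  have hw : ∀ z : ℂ, (s0 : ℂ) + z * I = ((s0 - z.im : ℝ) : ℂ) + (z.re : ℝ) * I := by
    intro z; apply Complex.ext <;> simp [sub_eq_add_neg]
  have hexp : ∀ z : ℂ, ‖Complex.exp (z ^ 2)‖ = Real.exp (z.re ^ 2 - z.im ^ 2) := by
    intro z; rw [Complex.norm_exp]; congr 1; simp [sq]
  have hpow : ∀ z : ℂ, ‖(α : ℂ) * Complex.exp (ρ * (s0 + z * I))‖
      = α * Real.exp (ρ * (s0 - z.im)) := by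
    intro z
    rw [norm_mul, Complex.norm_real, Real.norm_of_nonneg hα.le, Complex.norm_exp]
    congr 2
    simp
    ring_nf
    simp
  have hbd : ∀ z ∈ verticalClosedStrip 0 θ2, ‖f z‖ ≤ B := by
    intro z hz
    have hz1 : 0 ≤ z.re := hz.1
    have hz2 : z.re ≤ θ2 := hz.2
    simp only [hf]
    rw [norm_mul, hexp]
    have hb1 : ‖Lm U (s0 + z * I)‖ ≤ Cth θ2 * (α * Real.exp (ρ * (s0 - z.im))) := by
      rw [hw z]
      exact (Lm_bound U hU hz1 hz2 h2).trans (mul_le_mul_of_nonneg_left (hup _) hC)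
    have hb2 : ‖Lm U (s0 + z * I) - α * Complex.exp (ρ * (s0 + z * I))‖
        ≤ (Cth θ2 + 1) * (α * Real.exp (ρ * (s0 - z.im))) := by
      calc _ ≤ ‖Lm U (s0 + z * I)‖ + ‖(α : ℂ) * Complex.exp (ρ * (s0 + z * I))‖ := norm_sub_le _ _
        _ ≤ _ := by rw [hpow]; linarith
    calc _ ≤ (Cth θ2 + 1) * (α * Real.exp (ρ * (s0 - z.im))) * Real.exp (z.re ^ 2 - z.im ^ 2) :=
          mul_le_mul_of_nonneg_right hb2 (Real.exp_pos _).le
      _ = (Cth θ2 + 1) * α * Real.exp (ρ * (s0 - z.im) + (z.re ^ 2 - z.im ^ 2)) := by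
          rw [Real.exp_add]; ring
      _ ≤ (Cth θ2 + 1) * α * Real.exp ((1 + θ2 ^ 2) + ρ * s0) := by
          apply mul_le_mul_of_nonneg_left _ (by positivity)
          apply Real.exp_le_exp.2
          have e1 : z.re ^ 2 ≤ θ2 ^ 2 := by nlinarith
          have e2 : -(ρ * z.im) - z.im ^ 2 ≤ 1 := by nlinarith [sq_nonneg (z.im + ρ / 2), sq_nonneg ρ]
          linarith
      _ = B := by rw [Real.exp_add, hB]; ring
  have hdiff : ∀ z : ℂ, -Real.pi < z.re → z.re < Real.pi → DifferentiableAt ℂ f z := by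
    intro z hz1 hz2
    simp only [hf]
    apply DifferentiableAt.mul
    · apply DifferentiableAt.sub
      · have h3 : DifferentiableAt ℂ (Lm U) (s0 + z * I) := by
          apply Lm_diff U hU
          rw [abs_lt]
          constructor <;> simp <;> linarith
        have h4 : DifferentiableAt ℂ (fun z : ℂ => (s0 : ℂ) + z * I) z := by fun_prop
        exact DifferentiableAt.comp (g := Lm U) (f := fun z : ℂ => (s0 : ℂ) + z * I) z h3 h4
      · fun_prop
    · fun_prop
  have hdc : DiffContOnCl ℂ f (verticalStrip 0 θ2) := by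
    apply DifferentiableOn.diffContOnCl
    intro z hz
    have hz' : z ∈ verticalClosedStrip 0 θ2 := by
      have hcl : IsClosed (verticalClosedStrip 0 θ2) := isClosed_Icc.preimage Complex.continuous_re
      have hsub : verticalStrip 0 θ2 ⊆ verticalClosedStrip 0 θ2 :=
        Set.preimage_mono Set.Ioo_subset_Icc_self
      exact closure_minimal hsub hcl hz
    have hz1 : 0 ≤ z.re := hz'.1
    have hz2 : z.re ≤ θ2 := hz'.2
    exact (hdiff z (by linarith [Real.pi_pos]) (by linarith)).differentiableWithinAt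
  have hmem : ((θ1 : ℝ) : ℂ) ∈ verticalClosedStrip 0 θ2 := by
    constructor <;> simp <;> linarith
  have key := norm_le_interp_of_mem_verticalClosedStrip' (f := f) (z := (θ1 : ℂ)) (a := a) (b := B)
    hθ2 hmem hdc ⟨B, by
      rintro _ ⟨z, hz, rfl⟩
      exact hbd z hz⟩ (by
      intro z hz
      have hz0 : z.re = 0 := hz
      simp only [hf]
      rw [norm_mul, hexp, hz0]
      have e1 : (s0 : ℂ) + z * I = ((s0 + (-z.im) : ℝ) : ℂ) := by
        rw [hw z, hz0]; push_cast; ring
      rw [e1, Lm_real U hU]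
      have e2 : (α : ℂ) * Complex.exp (ρ * ((s0 + (-z.im) : ℝ) : ℂ))
          = ((α * Real.exp (ρ * (s0 + (-z.im))) : ℝ) : ℂ) := by push_cast; ring_nf
      rw [e2, ← Complex.ofReal_sub, Complex.norm_real, Real.norm_eq_abs]
      have := hlo (-z.im)
      have e3 : (0 : ℝ) ^ 2 - z.im ^ 2 = -(-z.im) ^ 2 := by ring
      rw [e3]; exact this) (by
      intro z hz
      have hz0 : z.re = θ2 := hz
      apply hbd
      constructor <;> rw [hz0]
      exact hθ2.le)
  simp only [ofReal_re, sub_zero] at key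
  refine le_trans ?_ key
  simp only [hf]
  rw [norm_mul, hexp]
  simp only [ofReal_re, ofReal_im]
  have : 1 ≤ Real.exp (θ1 ^ 2 - 0 ^ 2) := Real.one_le_exp (by nlinarith [sq_nonneg θ1])
  exact le_mul_of_one_le_right (norm_nonneg _) this

end H775R2.RR
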