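import Pool.Agent.H775R2.RR.Kernel
import Pool.Agent.H775R2.RR.Strip

namespace H775R2.RR

open Filter Topology

/-- coefficients of `(1 + x/n)^n` -/
noncomputable def an (n k : ℕ) : ℝ := (n.choose k : ℝ) * (1 / (n : ℝ)) ^ k

lemma an_nonneg (n k : ℕ) : 0 ≤ an n k := by unfold an; positivity

lemma an_le (n k : ℕ) : an n k ≤ 1 / (k.factorial : ℝ) := by
  unfold an
  rcases Nat.eq_zero_or_pos n with rfl | hn
  · rcases k with _ | k
    · simp
    · simp
  · have h1 : ((n.choose k * k.factorial : ℕ) : ℝ) ≤ ((n ^ k : ℕ) : ℝ) := by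
      have h := Nat.descFactorial_le_pow n k
      rw [Nat.descFactorial_eq_factorial_mul_choose] at h
      exact_mod_cast (by rw [mul_comm]; exact h : n.choose k * k.factorial ≤ n ^ k)
    push_cast at h1
    have hn' : (0 : ℝ) < n := by exact_mod_cast hn
    have hk : (0 : ℝ) < k.factorial := by exact_mod_cast k.factorial_pos
    rw [one_div, inv_pow, le_div_iff₀ hk, ← div_eq_mul_inv, div_mul_eq_mul_div, div_le_one (by positivity)]
    exact h1

lemma an_ge {n k : ℕ} (hn : 0 < n) (hk : k ≤ n) :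
    (1 - (k : ℝ) / n) ^ k * (1 / (k.factorial : ℝ)) ≤ an n k := by
  unfold an
  have hn' : (0 : ℝ) < n := by exact_mod_cast hn
  have hkf : (0 : ℝ) < k.factorial := by exact_mod_cast k.factorial_pos
  have h1 : (((n - k) ^ k : ℕ) : ℝ) ≤ ((n.choose k * k.factorial : ℕ) : ℝ) := by
    have h := Nat.pow_sub_le_descFactorial n k
    rw [Nat.descFactorial_eq_factorial_mul_choose, mul_comm] at h
    have h2 : (n - k) ^ k ≤ (n + 1 - k) ^ k := Nat.pow_le_pow_left (by omega) k
    exact_mod_cast h2.trans h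
  push_cast [Nat.cast_sub hk] at h1
  have e : (1 - (k : ℝ) / n) ^ k = ((n : ℝ) - k) ^ k / (n : ℝ) ^ k := by
    rw [← div_pow]; congr 1; field_simp
  rw [e, one_div, one_div, inv_pow, ← div_eq_mul_inv, ← div_eq_mul_inv, div_div,
    div_le_div_iff₀ (by positivity) (by positivity)]
  have : (0 : ℝ) < (n : ℝ) ^ k := by positivity
  nlinarith

lemma an_tendsto (k : ℕ) : Tendsto (fun n => an n k) atTop (𝓝 (1 / (k.factorial : ℝ))) := by
  have h1 : Tendsto (fun n : ℕ => (1 - (k : ℝ) / n) ^ k * (1 / (k.factorial : ℝ))) atTop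
      (𝓝 ((1 - 0) ^ k * (1 / (k.factorial : ℝ)))) := by
    apply Tendsto.mul_const
    apply Tendsto.pow
    exact (tendsto_const_div_atTop_nhds_zero_nat (k : ℝ)).const_sub 1
  simp only [sub_zero, one_pow, one_mul] at h1
  apply tendsto_of_tendsto_of_tendsto_of_le_of_le' h1 tendsto_const_nhds
  · filter_upwards [eventually_ge_atTop (k + 1)] with n hn
    exact an_ge (by omega) (by omega)
  · filter_upwards with n
    exact an_le n k

lemma an_zero {n k : ℕ} (h : n < k) : an n k = 0 := by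
  unfold an; rw [Nat.choose_eq_zero_of_lt h]; simp

/-- pointwise convergence of the transformed polynomials -/
lemma poly_tendsto {α : ℝ} (hα : 1 ≤ α) (x : ℝ) :
    Tendsto (fun n : ℕ => ∑ k ∈ Finset.range (n + 1), (an n k) ^ α * x ^ k) atTop
      (𝓝 (∑' k : ℕ, bb α k * x ^ k)) := by
  have hα0 : 0 < α := by linarith
  have e : (fun n : ℕ => ∑ k ∈ Finset.range (n + 1), (an n k) ^ α * x ^ k)
      = fun n => ∑' k : ℕ, (an n k) ^ α * x ^ k := by
    funext n
    symm
    apply tsum_eq_sum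
    intro k hk
    rw [an_zero (by simpa using hk), Real.zero_rpow hα0.ne', zero_mul]
  rw [e]
  have hbb : ∀ k : ℕ, (1 / (k.factorial : ℝ)) ^ α = bb α k := by
    intro k
    unfold bb
    rw [one_div, Real.inv_rpow (by positivity), Real.rpow_neg (by positivity)]
  apply tendsto_tsum_of_dominated_convergence (bound := fun k => bb α k * |x| ^ k)
    (bb_summable hα |x|)
  · intro k
    apply Tendsto.mul_const
    rw [← hbb]
    exact (an_tendsto k).rpow_const (Or.inr hα0.le)
  · filter_upwards with n k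
    rw [norm_mul, norm_pow, Real.norm_eq_abs, Real.norm_eq_abs,
      abs_of_nonneg (Real.rpow_nonneg (an_nonneg n k) α)]
    apply mul_le_mul_of_nonneg_right _ (by positivity)
    rw [← hbb]
    exact Real.rpow_le_rpow (an_nonneg n k) (an_le n k) hα0.le

lemma gg_measurable {α : ℝ} (hα : 1 ≤ α) : Measurable (gg α) := by
  apply measurable_of_tendsto_metrizable
    (f := fun n : ℕ => fun y : ℝ => ∑ k ∈ Finset.range (n + 1), (an n k) ^ α * (-y) ^ k)
  · intro n
    fun_prop
  · rw [tendsto_pi_nhds]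
    intro y
    exact poly_tendsto hα (-y)

lemma sum_rpow_le {α : ℝ} (hα : 1 ≤ α) (s : Finset ℕ) (c : ℕ → ℝ) (hc : ∀ k, 0 ≤ c k) :
    ∑ k ∈ s, c k ^ α ≤ (∑ k ∈ s, c k) ^ α := by
  set S := ∑ k ∈ s, c k with hS
  have hS0 : 0 ≤ S := Finset.sum_nonneg (fun k _ => hc k)
  have h1 : ∀ k ∈ s, c k ^ α ≤ c k * S ^ (α - 1) := by
    intro k hk
    have hle : c k ≤ S := Finset.single_le_sum (f := c) (fun i _ => hc i) hk
    have e : c k ^ α = c k * c k ^ (α - 1) := by
      rcases eq_or_lt_of_le (hc k) with h | h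
      · rw [← h, Real.zero_rpow (by linarith), zero_mul]
      · rw [mul_comm, ← Real.rpow_add_one h.ne']; congr 1; ring
    rw [e]
    exact mul_le_mul_of_nonneg_left (Real.rpow_le_rpow (hc k) hle (by linarith)) (hc k)
  refine (Finset.sum_le_sum h1).trans ?_
  rw [← Finset.sum_mul, ← hS]
  rcases eq_or_lt_of_le hS0 with h | h
  · rw [← h, zero_mul]; exact Real.rpow_nonneg le_rfl _
  · rw [mul_comm, ← Real.rpow_add_one h.ne']
    apply le_of_eq; congr 1; ring

/-- the polynomial is at most `exp (α E)` -/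
lemma poly_upper {α : ℝ} (hα : 1 ≤ α) {n : ℕ} (hn : 0 < n) (x : ℝ) :
    ∑ k ∈ Finset.range (n + 1), (an n k) ^ α * (Real.exp x) ^ k
      ≤ Real.exp (α * Real.exp (α⁻¹ * x)) := by
  have hα0 : 0 < α := by linarith
  set E := Real.exp (α⁻¹ * x) with hE
  have hE0 : 0 < E := Real.exp_pos _
  have hterm : ∀ k : ℕ, (an n k) ^ α * (Real.exp x) ^ k = (an n k * E ^ k) ^ α := by
    intro k
    rw [Real.mul_rpow (an_nonneg n k) (by positivity)]
    congr 1
    rw [← Real.exp_nat_mul, hE, ← Real.exp_nat_mul, ← Real.exp_mul]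
    congr 1; field_simp
  simp only [hterm]
  refine (sum_rpow_le hα _ _ (fun k => mul_nonneg (an_nonneg n k) (by positivity))).trans ?_
  have hn' : (0 : ℝ) < n := by exact_mod_cast hn
  have hsum : ∑ k ∈ Finset.range (n + 1), an n k * E ^ k = (1 + E / n) ^ n := by
    rw [add_comm (1 : ℝ), add_pow]
    apply Finset.sum_congr rfl
    intro k _
    unfold an
    rw [one_pow, div_pow, div_pow, one_pow]; field_simp
  rw [hsum]
  have h1 : (1 + E / n) ^ n ≤ Real.exp E := by
    have h2 : 1 + E / n ≤ Real.exp (E / n) := by linarith [Real.add_one_le_exp (E / n)]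
    calc (1 + E / n) ^ n ≤ (Real.exp (E / n)) ^ n := pow_le_pow_left₀ (by positivity) h2 n
      _ = Real.exp E := by rw [← Real.exp_nat_mul]; congr 1; field_simp
  calc ((1 + E / n) ^ n) ^ α ≤ (Real.exp E) ^ α :=
        Real.rpow_le_rpow (by positivity) h1 hα0.le
    _ = Real.exp (α * E) := by rw [← Real.exp_mul]; ring_nf

lemma fact_bound (k : ℕ) : (k.factorial : ℝ) * Real.exp k ≤ ((k : ℝ) + 1) ^ (k + 1) := by
  induction k with
  | zero => simp
  | succ k ih =>
    have hk : (0 : ℝ) < (k : ℝ) + 1 := by positivity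
    have h1 : Real.exp 1 * ((k : ℝ) + 1) ^ (k + 2) ≤ ((k : ℝ) + 2) ^ (k + 2) := by
      have h2 : ((k : ℝ) + 1) / (k + 2) ≤ Real.exp (-(1 / ((k : ℝ) + 2))) := by
        have := Real.add_one_le_exp (-(1 / ((k : ℝ) + 2)))
        have e : -(1 / ((k : ℝ) + 2)) + 1 = ((k : ℝ) + 1) / (k + 2) := by field_simp; ring
        rw [e] at this; exact this
      have h3 := pow_le_pow_left₀ (by positivity) h2 (k + 2)
      rw [← Real.exp_nat_mul, div_pow, div_le_iff₀ (by positivity)] at h3
      have e : ((k + 2 : ℕ) : ℝ) * -(1 / ((k : ℝ) + 2)) = -1 := by push_cast; field_simp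
      rw [e] at h3
      have h4 := mul_le_mul_of_nonneg_left h3 (Real.exp_pos 1).le
      have e2 : Real.exp 1 * (Real.exp (-1) * ((k : ℝ) + 2) ^ (k + 2)) = ((k : ℝ) + 2) ^ (k + 2) := by
        rw [← mul_assoc, ← Real.exp_add]; simp
      rw [e2] at h4; exact h4
    rw [Nat.factorial_succ]
    push_cast
    rw [Real.exp_add]
    have e3 : ((k : ℝ) + 1 + 1) = (k : ℝ) + 2 := by ring
    rw [e3]
    calc ((k : ℝ) + 1) * k.factorial * (Real.exp k * Real.exp 1)
        = Real.exp 1 * ((k : ℝ) + 1) * (k.factorial * Real.exp k) := by ring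
      _ ≤ Real.exp 1 * ((k : ℝ) + 1) * ((k : ℝ) + 1) ^ (k + 1) :=
          mul_le_mul_of_nonneg_left ih (by positivity)
      _ = Real.exp 1 * ((k : ℝ) + 1) ^ (k + 2) := by ring
      _ ≤ _ := h1

/-- the maximal term of the exponential series -/
lemma max_term {E : ℝ} (hE : 0 < E) :
    Real.exp (E - 2) / (1 + E) ≤ E ^ ⌊E⌋₊ * (1 / (⌊E⌋₊.factorial : ℝ)) := by
  set k := ⌊E⌋₊ with hk
  have hk1 : (k : ℝ) ≤ E := Nat.floor_le hE.le
  have hk2 : E < k + 1 := Nat.lt_floor_add_one E
  have hkf : (0 : ℝ) < k.factorial := by exact_mod_cast k.factorial_pos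
  have hpow : ((k : ℝ) + 1) ^ k ≤ Real.exp 1 * E ^ k := by
    rcases Nat.eq_zero_or_pos k with h | h
    · rw [h]; simp
    · have hk0 : (0 : ℝ) < k := by exact_mod_cast h
      have h2 : ((k : ℝ) + 1) ≤ Real.exp (1 / k) * k := by
        have := Real.add_one_le_exp (1 / (k : ℝ))
        have h3 := mul_le_mul_of_nonneg_right this hk0.le
        have e : (1 / (k : ℝ) + 1) * k = k + 1 := by field_simp; ring
        rw [e] at h3; exact h3
      have h4 := pow_le_pow_left₀ (by positivity) h2 k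
      rw [mul_pow, ← Real.exp_nat_mul] at h4
      have e : (k : ℝ) * (1 / k) = 1 := by field_simp
      rw [e] at h4
      exact h4.trans (mul_le_mul_of_nonneg_left (pow_le_pow_left₀ hk0.le hk1 k) (Real.exp_pos 1).le)
  have hfb := fact_bound k
  rw [mul_one_div, div_le_div_iff₀ (by positivity) hkf]
  have h5 : Real.exp (E - 2) ≤ Real.exp (k - 1 : ℝ) := Real.exp_le_exp.2 (by linarith)
  have h6 : Real.exp (k - 1 : ℝ) * Real.exp 1 = Real.exp k := by rw [← Real.exp_add]; ring_nf
  have h7 : Real.exp (k : ℝ) * k.factorial ≤ Real.exp 1 * E ^ k * (k + 1) := by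
    calc Real.exp (k : ℝ) * k.factorial ≤ ((k : ℝ) + 1) ^ (k + 1) := by linarith
      _ = ((k : ℝ) + 1) ^ k * (k + 1) := pow_succ _ _
      _ ≤ _ := mul_le_mul_of_nonneg_right hpow (by positivity)
  have h8 : Real.exp (k - 1 : ℝ) * k.factorial ≤ E ^ k * (k + 1) := by
    have h9 : Real.exp 1 * (Real.exp (k - 1 : ℝ) * k.factorial) ≤ Real.exp 1 * (E ^ k * (k + 1)) := by
      calc Real.exp 1 * (Real.exp (k - 1 : ℝ) * k.factorial)
          = (Real.exp (k - 1 : ℝ) * Real.exp 1) * k.factorial := by ring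
        _ = Real.exp (k : ℝ) * k.factorial := by rw [h6]
        _ ≤ _ := by linarith
    exact le_of_mul_le_mul_left h9 (Real.exp_pos 1)
  calc Real.exp (E - 2) * k.factorial ≤ Real.exp (k - 1 : ℝ) * k.factorial :=
        mul_le_mul_of_nonneg_right h5 hkf.le
    _ ≤ E ^ k * (k + 1) := h8
    _ ≤ E ^ k * (1 + E) := mul_le_mul_of_nonneg_left (by linarith) (by positivity)

/-- lower bound, uniform for `exp (x/α) ≤ k0` once `n ≥ 2 k0²` -/
lemma poly_lower {α : ℝ} (hα : 1 ≤ α) {n k0 : ℕ} (hn : 0 < n) (hnk : 2 * k0 ^ 2 ≤ n) (x : ℝ)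
    (hx : Real.exp (α⁻¹ * x) ≤ k0) :
    α * Real.exp (α⁻¹ * x) - α * (3 + Real.log (1 + Real.exp (α⁻¹ * x)))
      ≤ Real.log (∑ k ∈ Finset.range (n + 1), (an n k) ^ α * (Real.exp x) ^ k) := by
  have hα0 : 0 < α := by linarith
  set E := Real.exp (α⁻¹ * x) with hE
  have hE0 : 0 < E := Real.exp_pos _
  have hn' : (0 : ℝ) < n := by exact_mod_cast hn
  have hterm : ∀ k : ℕ, (an n k) ^ α * (Real.exp x) ^ k = (an n k * E ^ k) ^ α := by
    intro k
    rw [Real.mul_rpow (an_nonneg n k) (by positivity)]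
    congr 1
    rw [← Real.exp_nat_mul, hE, ← Real.exp_nat_mul, ← Real.exp_mul]
    congr 1; field_simp
  set k := ⌊E⌋₊ with hk
  have hkk0 : k ≤ k0 := by
    have : (k : ℝ) ≤ k0 := (Nat.floor_le hE0.le).trans hx
    exact_mod_cast this
  have hk0n : k0 ≤ n := by
    rcases Nat.eq_zero_or_pos k0 with h | h
    · omega
    · nlinarith
  have hkn : k ≤ n := hkk0.trans hk0n
  have hhalf : (1 : ℝ) / 2 ≤ (1 - (k : ℝ) / n) ^ k := by
    have h1 : (k : ℝ) / n ≤ 1 := by
      rw [div_le_one hn']; exact_mod_cast hkn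
    have h2 := one_add_mul_le_pow (a := -((k : ℝ) / n)) (by linarith) k
    have h3 : (k : ℝ) * (k / n) ≤ 1 / 2 := by
      rw [← mul_div_assoc, div_le_div_iff₀ hn' two_pos]
      have h4 : 2 * k ^ 2 ≤ n := le_trans (by nlinarith) hnk
      have h5 : (2 : ℝ) * (k : ℝ) ^ 2 ≤ n := by exact_mod_cast h4
      nlinarith
    have e : (1 : ℝ) - k / n = 1 + -((k : ℝ) / n) := by ring
    rw [e]
    refine le_trans ?_ h2
    linarith
  have hc : Real.exp (E - 3) / (1 + E) ≤ an n k * E ^ k := by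
    have h1 := an_ge hn hkn
    have h2 := max_term hE0
    have h3 : (1 : ℝ) / 2 * (Real.exp (E - 2) / (1 + E)) ≤ an n k * E ^ k := by
      calc (1 : ℝ) / 2 * (Real.exp (E - 2) / (1 + E))
          ≤ (1 - (k : ℝ) / n) ^ k * (E ^ k * (1 / (k.factorial : ℝ))) := by
            apply mul_le_mul hhalf h2 (by positivity) (by positivity)
        _ = ((1 - (k : ℝ) / n) ^ k * (1 / (k.factorial : ℝ))) * E ^ k := by ring
        _ ≤ _ := mul_le_mul_of_nonneg_right h1 (by positivity)
    refine le_trans ?_ h3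
    rw [← mul_div_assoc]
    apply div_le_div_of_nonneg_right _ (by positivity)
    have h4 : Real.exp (E - 3) = Real.exp (E - 2) * Real.exp (-1) := by
      rw [← Real.exp_add]; ring_nf
    rw [h4]
    have h5 : Real.exp (-1) ≤ 1 / 2 := by
      rw [Real.exp_neg, inv_le_comm₀ (Real.exp_pos 1) (by norm_num)]
      have := Real.add_one_le_exp (1 : ℝ)
      norm_num at this ⊢
      linarith
    have := Real.exp_pos (E - 2)
    nlinarith
  have hS : (Real.exp (E - 3) / (1 + E)) ^ α
      ≤ ∑ k ∈ Finset.range (n + 1), (an n k) ^ α * (Real.exp x) ^ k := by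
    simp only [hterm]
    calc (Real.exp (E - 3) / (1 + E)) ^ α ≤ (an n k * E ^ k) ^ α :=
          Real.rpow_le_rpow (by positivity) hc hα0.le
      _ ≤ _ := Finset.single_le_sum (f := fun k => (an n k * E ^ k) ^ α)
          (fun i _ => Real.rpow_nonneg (mul_nonneg (an_nonneg n i) (by positivity)) α)
          (Finset.mem_range.2 (by omega))
  have hlog := Real.log_le_log (by positivity) hS
  rw [Real.log_rpow (by positivity), Real.log_div (by positivity) (by positivity), Real.log_exp]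
    at hlog
  linarith

end H775R2.RR
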