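import Pool.Agent.H775R2.RR.Power

namespace H775R2.RR

open Polynomial

/-- A monotone function on the line which is midpoint convex and almost midpoint concave is
affine. -/
lemma affine_of_jensen {G : ℝ → ℝ} (hm : Monotone G)
    (h1 : ∀ s L, 0 < L → 2 * G s ≤ G (s - L) + G (s + L))
    (h2 : ∀ s L e, 0 < L → 0 < e → G (s - L) + G (s + L) ≤ 2 * G (s + e)) :
    ∃ α, 0 ≤ α ∧ ∀ x, G x = G 0 + α * x := by
  have hinc : ∀ (s d : ℝ), 0 < d → ∀ N : ℕ, G (s + d) - G s ≤ G (s + (N + 1) * d) - G (s + N * d) := by
    intro s d hd N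
    induction N with
    | zero => simp
    | succ N ih =>
      have := h1 (s + (N + 1) * d) d hd
      have e1 : s + ((N : ℝ) + 1) * d - d = s + N * d := by ring
      have e2 : s + ((N : ℝ) + 1) * d + d = s + (((N + 1 : ℕ) : ℝ) + 1) * d := by push_cast; ring
      have e3 : s + (((N + 1 : ℕ) : ℝ)) * d = s + ((N : ℝ) + 1) * d := by push_cast; ring
      rw [e1, e2] at this
      rw [e3]; linarith
  have hsum : ∀ (s d : ℝ), 0 < d → ∀ N : ℕ, N * (G (s + d) - G s) ≤ G (s + N * d) - G s := by
    intro s d hd N
    induction N with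
    | zero => simp
    | succ N ih =>
      have := hinc s d hd N
      push_cast
      linarith
  have hJ : ∀ s L, 0 < L → G (s - L) + G (s + L) = 2 * G s := by
    intro s L hL
    apply le_antisymm _ (h1 s L hL)
    by_contra hcon
    push Not at hcon
    set D := G (s - L) + G (s + L) - 2 * G s with hD
    have hDpos : 0 < D := by linarith
    set c := G (s + L) - G s with hc
    obtain ⟨N, hN⟩ := exists_nat_gt (2 * c / D)
    have hc0 : 0 ≤ c := by rw [hc]; linarith [hm (show s ≤ s + L by linarith)]
    have hNpos : (0 : ℝ) < N := lt_of_le_of_lt (by positivity) hN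
    have h3 := h2 s L (L / N) hL (by positivity)
    have h4 := hsum s (L / N) (by positivity) N
    have e : s + (N : ℝ) * (L / N) = s + L := by field_simp
    rw [e] at h4
    have h5 : D ≤ 2 * (G (s + L / N) - G s) := by linarith
    have h6 : (N : ℝ) * D ≤ 2 * c := by nlinarith
    rw [div_lt_iff₀ hDpos] at hN
    linarith
  have hJ' : ∀ x y, G x + G y = G (x + y) + G 0 := by
    have key : ∀ x y, G x + G y = 2 * G ((x + y) / 2) := by
      intro x y
      rcases lt_trichotomy x y with h | h | h
      · have := hJ ((x + y) / 2) ((y - x) / 2) (by linarith)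
        have e1 : (x + y) / 2 - (y - x) / 2 = x := by ring
        have e2 : (x + y) / 2 + (y - x) / 2 = y := by ring
        rw [e1, e2] at this; exact this
      · subst h
        have : (x + x) / 2 = x := by ring
        rw [this]; ring
      · have := hJ ((x + y) / 2) ((x - y) / 2) (by linarith)
        have e1 : (x + y) / 2 - (x - y) / 2 = y := by ring
        have e2 : (x + y) / 2 + (x - y) / 2 = x := by ring
        rw [e1, e2] at this; linarith
    intro x y
    rw [key x y]
    have := key (x + y) 0
    rw [add_zero] at this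
    exact this.symm
  set f : ℝ → ℝ := fun x => G x - G 0 with hf
  have hadd : ∀ x y, f (x + y) = f x + f y := by
    intro x y; simp only [hf]; linarith [hJ' x y]
  have hmf : Monotone f := fun x y hxy => by simp only [hf]; linarith [hm hxy]
  have hf0 : f 0 = 0 := by simp [hf]
  have hnat : ∀ (n : ℕ) x, f (n * x) = n * f x := by
    intro n x
    induction n with
    | zero => simp [hf0]
    | succ n ih =>
      have : ((n + 1 : ℕ) : ℝ) * x = n * x + x := by push_cast; ring
      rw [this, hadd, ih]; push_cast; ring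
  have hneg : ∀ x, f (-x) = - f x := by
    intro x
    have := hadd x (-x)
    rw [add_neg_cancel, hf0] at this; linarith
  have hint : ∀ (n : ℤ), f n = n * f 1 := by
    intro n
    rcases Int.eq_nat_or_neg n with ⟨m, rfl | rfl⟩
    · have := hnat m 1; rw [mul_one] at this; simpa using this
    · have := hnat m 1
      rw [mul_one] at this
      push_cast
      rw [hneg, this]; ring
  refine ⟨f 1, ?_, ?_⟩
  · rw [← hf0]; exact hmf zero_le_one
  · intro x
    have hf1 : 0 ≤ f 1 := by rw [← hf0]; exact hmf zero_le_one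
    have key : ∀ n : ℕ, |(n : ℝ) * (f x - f 1 * x)| ≤ f 1 := by
      intro n
      have a1 : f (⌊(n : ℝ) * x⌋ : ℤ) ≤ f (n * x) := hmf (Int.floor_le _)
      have a2 : f (n * x) ≤ f ((⌊(n : ℝ) * x⌋ + 1 : ℤ)) := by
        apply hmf; push_cast; exact (Int.lt_floor_add_one _).le
      rw [hint, hnat] at a1
      rw [hint, hnat] at a2
      push_cast at a2
      have b1 := Int.floor_le ((n : ℝ) * x)
      have b2 := (Int.lt_floor_add_one ((n : ℝ) * x)).le
      rw [abs_le]
      constructor <;> nlinarith
    have hzero : f x - f 1 * x = 0 := by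
      by_contra hne
      have hpos : 0 < |f x - f 1 * x| := abs_pos.2 hne
      obtain ⟨n, hn⟩ := exists_nat_gt (f 1 / |f x - f 1 * x|)
      have := key n
      rw [abs_mul, Nat.abs_cast] at this
      rw [div_lt_iff₀ hpos] at hn
      linarith
    have : f x = G x - G 0 := rfl
    linarith

variable {F : ℝ → ℝ}

/-- A preserver which is not identically zero is a power function with exponent `≥ 1`. -/
theorem power_law (hF : ∀ t, 0 ≤ t → 0 ≤ F t) (h0 : F 0 = 0) (hpres : Preserves F)
    (hne : ∃ t, 0 < t ∧ F t ≠ 0) :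
    ∃ c α : ℝ, 0 < c ∧ 1 ≤ α ∧ ∀ t, 0 < t → F t = c * t ^ α := by
  obtain ⟨t0, ht0, hFt0⟩ := hne
  have hFt0' : 0 < F t0 := lt_of_le_of_ne (hF _ ht0.le) (Ne.symm hFt0)
  have hpos : ∀ t, 0 < t → 0 < F t := by
    intro t ht
    rcases le_or_gt t0 t with h | h
    · exact hFt0'.trans_le (mono hF h0 hpres ht0 h)
    · have := gap hF h0 hpres ht0 (l := t0 / t) (by rwa [one_lt_div ht])
      have e : t0 / (t0 / t) = t := by field_simp
      rw [e] at this
      by_contra hcon
      have h3 : F t = 0 := le_antisymm (not_lt.1 hcon) (hF _ ht.le)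
      rw [h3, zero_mul] at this
      nlinarith
  set G : ℝ → ℝ := fun x => Real.log (F (Real.exp x)) with hG
  have hmono : Monotone G := by
    intro x y hxy
    exact Real.log_le_log (hpos _ (Real.exp_pos x))
      (mono hF h0 hpres (Real.exp_pos x) (Real.exp_le_exp.2 hxy))
  obtain ⟨α, hα0, hα⟩ := affine_of_jensen hmono (by
    intro s L hL
    have h1 := gap hF h0 hpres (Real.exp_pos s) (l := Real.exp L) (by simpa using hL)
    rw [← Real.exp_sub, ← Real.exp_add] at h1
    have p1 := hpos _ (Real.exp_pos s)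
    have p2 := hpos _ (Real.exp_pos (s - L))
    have p3 := hpos _ (Real.exp_pos (s + L))
    have h2 := Real.log_le_log (by positivity) h1
    rw [Real.log_pow, Real.log_mul p2.ne' p3.ne'] at h2
    simpa [hG] using h2) (by
    intro s L e hL he
    have p1 := hpos _ (Real.exp_pos (s + e))
    have p2 := hpos _ (Real.exp_pos (s - L))
    have p3 := hpos _ (Real.exp_pos (s + L))
    have h1 := newton hF h0 hpres (Real.exp_pos (s - L)) (Real.exp_pos (s + e))
      (Real.exp_pos (s + L)) (by
        rw [← Real.exp_add, ← Real.exp_nat_mul]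
        apply Real.exp_lt_exp.2
        push_cast; linarith)
    have h2 := Real.log_le_log (by positivity) h1
    rw [Real.log_pow, Real.log_mul p2.ne' p3.ne'] at h2
    simpa [hG] using h2)
  have hform : ∀ t, 0 < t → F t = Real.exp (G 0) * t ^ α := by
    intro t ht
    have h1 := hα (Real.log t)
    have h2 : G (Real.log t) = Real.log (F t) := by simp only [hG]; rw [Real.exp_log ht]
    rw [h2] at h1
    rw [← Real.exp_log (hpos t ht), h1, Real.exp_add, Real.rpow_def_of_pos ht, mul_comm α]
  refine ⟨Real.exp (G 0), α, Real.exp_pos _, ?_, hform⟩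
  -- the exponent is at least one, from `(1+x)^2`
  by_contra hlt
  push Not at hlt
  set c := Real.exp (G 0) with hc
  have hcpos : 0 < c := Real.exp_pos _
  set p : ℝ[X] := (1 + C 1 * X) ^ 2 with hp
  have hpp : PosCoeffs p := posCoeffs_pow (posCoeffs_lin one_pos) 2
  have hpr : RealRooted p := Or.inr (realRooted_pow (realRooted_lin one_pos) 2)
  have hco : ∀ k, (coeffMap F p).coeff k = F ((Nat.choose 2 k : ℝ)) := by
    intro k; rw [coeffMap_coeff F h0, hp, coeff_lin_pow, one_pow, mul_one]
  have hF1 : F 1 = c := by rw [hform 1 one_pos]; simp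
  have hF2 : F 2 = c * 2 ^ α := hform 2 two_pos
  have hP : coeffMap F p = C c * (1 + C ((2:ℝ) ^ α) * X + X ^ 2) := by
    ext k
    rw [hco, coeff_C_mul]
    rcases k with _ | _ | _ | k
    · simp [hF1, coeff_one]
    · simp [hF2, coeff_one, coeff_X_pow]
    · simp [hF1, coeff_one, coeff_C_mul, coeff_X]
    · rw [Nat.choose_eq_zero_of_lt (by omega)]
      simp [h0, coeff_one, coeff_C_mul, coeff_X, coeff_X_pow]
  have hb : (2 : ℝ) ^ α < 2 := by
    calc (2 : ℝ) ^ α < 2 ^ (1 : ℝ) := Real.rpow_lt_rpow_of_exponent_lt one_lt_two hlt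
      _ = 2 := by simp
  have hb0 : 0 < (2 : ℝ) ^ α := by positivity
  set b : ℝ := (2 : ℝ) ^ α with hbdef
  set y : ℝ := Real.sqrt (4 - b ^ 2) / 2 with hy
  have hy2 : y ^ 2 = (4 - b ^ 2) / 4 := by
    rw [hy, div_pow, Real.sq_sqrt (by nlinarith)]; norm_num
  have hy0 : 0 < y := by
    rw [hy]; apply div_pos (Real.sqrt_pos.2 (by nlinarith)) two_pos
  rcases hpres p hpp hpr with h | h
  · have := congrArg (fun q => coeff q 0) h
    simp only [hco, coeff_zero] at this
    simp [hF1, hcpos.ne'] at this
  · have h2 := h ⟨-b / 2, y⟩ (by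
      rw [hP]
      simp only [map_mul, aeval_C, map_add, map_one, aeval_X, map_pow]
      have : (1 + (algebraMap ℝ ℂ) b * (⟨-b / 2, y⟩ : ℂ) + (⟨-b / 2, y⟩ : ℂ) ^ 2) = 0 := by
        apply Complex.ext
        · simp [sq, Complex.mul_re]
          nlinarith
        · simp [sq, Complex.mul_im]
          ring
      rw [this, mul_zero])
    exact hy0.ne' h2

end H775R2.RR
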