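import Pool.Agent.H775R2.RR.Bounds
import Pool.Agent.H775R2.RR.PowerLaw

namespace H775R2.RR

open Filter Topology Polynomial

/-- factorisation normalised at the origin -/
lemma root_form (P : ℝ[X]) (h : RealRooted P) (hc : ∀ k, 0 ≤ P.coeff k) (h0 : 0 < P.coeff 0) :
    ∃ U : Multiset ℝ, (∀ u ∈ U, 0 ≤ u) ∧
      ∀ x : ℝ, P.eval x = P.coeff 0 * (U.map (fun u => 1 + u * x)).prod := by
  have hP : P ≠ 0 := by rintro rfl; simp at h0
  obtain ⟨s, hs, hlc, hPs⟩ := factor_nonneg P hP h hc
  have hroot0 : ∀ r ∈ s, r ≠ 0 := by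
    rintro r hr rfl
    have : P.eval 0 = 0 := by
      rw [hPs, eval_mul, eval_multiset_prod, Multiset.map_map]
      have : (Multiset.map ((fun p => eval (0:ℝ) p) ∘ fun r => X - C r) s).prod = 0 := by
        apply Multiset.prod_eq_zero
        rw [Multiset.mem_map]
        exact ⟨0, hr, by simp⟩
      simpa using Or.inr this
    rw [← coeff_zero_eq_eval_zero] at this
    exact h0.ne' this
  refine ⟨s.map (fun r => -r⁻¹), ?_, ?_⟩
  · intro u hu
    rw [Multiset.mem_map] at hu
    obtain ⟨r, hr, rfl⟩ := hu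
    have := hs r hr
    have h3 : r⁻¹ ≤ 0 := inv_nonpos.2 this
    linarith
  · have key : ∀ (t : Multiset ℝ), (∀ r ∈ t, r ≠ 0) → ∀ x : ℝ,
        eval x (t.map (fun r => X - C r)).prod
          = eval 0 (t.map (fun r => X - C r)).prod * ((t.map (fun r => -r⁻¹)).map (fun u => 1 + u * x)).prod := by
      intro t ht x
      induction t using Multiset.induction_on with
      | empty => simp
      | cons r t ih =>
        have h1 := ih (fun y hy => ht y (Multiset.mem_cons_of_mem hy))
        have hr := ht r (Multiset.mem_cons_self r t)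
        simp only [Multiset.map_cons, Multiset.prod_cons, eval_mul, eval_sub, eval_X, eval_C, h1]
        field_simp
        ring
    intro x
    have e1 : P.eval x = P.leadingCoeff * eval x (s.map (fun r => X - C r)).prod := by
      conv_lhs => rw [hPs]
      simp
    have e0 : P.coeff 0 = P.leadingCoeff * eval 0 (s.map (fun r => X - C r)).prod := by
      rw [coeff_zero_eq_eval_zero]
      conv_lhs => rw [hPs]
      simp
    rw [e1, e0, key s hroot0 x]; ring

/-- Young's inequality in the form used -/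
lemma young {a b κ τ : ℝ} (ha : 0 ≤ a) (hb : 0 ≤ b) (hκ0 : 0 < κ) (hκ1 : κ < 1) (hτ : 0 < τ) :
    a ^ (1 - κ) * b ^ κ ≤ τ ^ (-(κ / (1 - κ))) * a + τ * b := by
  set l := τ ^ (-(κ / (1 - κ))) with hl
  have hl0 : 0 < l := Real.rpow_pos_of_pos hτ _
  have h1κ : 0 < 1 - κ := by linarith
  have h := Real.geom_mean_le_arith_mean2_weighted (w₁ := 1 - κ) (w₂ := κ) (p₁ := l * a)
    (p₂ := τ * b) h1κ.le hκ0.le (by positivity) (by positivity) (by ring)
  rw [Real.mul_rpow hl0.le ha, Real.mul_rpow hτ.le hb] at h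
  have e : l ^ (1 - κ) * τ ^ κ = 1 := by
    rw [hl, ← Real.rpow_mul hτ.le, ← Real.rpow_add hτ]
    have : -(κ / (1 - κ)) * (1 - κ) + κ = 0 := by field_simp; ring
    rw [this, Real.rpow_zero]
  have e2 : l ^ (1 - κ) * a ^ (1 - κ) * (τ ^ κ * b ^ κ) = a ^ (1 - κ) * b ^ κ := by
    calc l ^ (1 - κ) * a ^ (1 - κ) * (τ ^ κ * b ^ κ)
        = (l ^ (1 - κ) * τ ^ κ) * (a ^ (1 - κ) * b ^ κ) := by ring
      _ = _ := by rw [e, one_mul]
  rw [e2] at h
  have h3 : (1 - κ) * (l * a) ≤ l * a := by
    have := mul_nonneg hκ0.le (mul_nonneg hl0.le ha)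
    linarith
  have h4 : κ * (τ * b) ≤ τ * b := by
    have := mul_nonneg h1κ.le (mul_nonneg hτ.le hb)
    linarith
  linarith

/-- decay on the negative axis -/
theorem decay {α : ℝ} (h1 : 1 < α) (h2 : α < 2)
    (hU : ∀ n : ℕ, 0 < n → ∃ U : Multiset ℝ, (∀ u ∈ U, 0 ≤ u) ∧
      ∀ x : ℝ, ∑ k ∈ Finset.range (n + 1), (an n k) ^ α * x ^ k
        = (U.map (fun u => 1 + u * x)).prod) :
    ∃ K : ℝ, ∀ s : ℝ, 0 ≤ s → |gg α (Real.exp s)| ≤ Real.exp (K - 2 * s) := by
  have hα0 : 0 < α := by linarith
  set ρ := α⁻¹ with hρ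
  have hρ0 : 0 < ρ := by positivity
  have hρ1 : ρ ≤ 1 := by rw [hρ]; exact inv_le_one_of_one_le₀ h1.le
  set θ1 : ℝ := (α * Real.pi / 2 + Real.pi) / 2 with hθ1
  set θ2 : ℝ := (θ1 + Real.pi) / 2 with hθ2
  have hpi := Real.pi_pos
  have hαpi : α * Real.pi < 2 * Real.pi := mul_lt_mul_of_pos_right h2 hpi
  have hθ1a : α * Real.pi / 2 < θ1 := by rw [hθ1]; linarith
  have hθ1b : θ1 < Real.pi := by rw [hθ1]; linarith
  have hθ10 : 0 < θ1 := by rw [hθ1]; positivity
  have hθ12 : θ1 < θ2 := by rw [hθ2]; linarith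
  have hθ2b : θ2 < Real.pi := by rw [hθ2]; linarith
  have hθ20 : 0 < θ2 := by linarith
  have hcos : Real.cos (ρ * θ1) < 0 := by
    apply Real.cos_neg_of_pi_div_two_lt_of_lt
    · have : Real.pi / 2 = ρ * (α * Real.pi / 2) := by rw [hρ]; field_simp
      rw [this]; exact mul_lt_mul_of_pos_left hθ1a hρ0
    · have := mul_le_of_le_one_left hθ10.le hρ1
      linarith
  set κ := θ1 / θ2 with hκ
  have hκ0 : 0 < κ := by positivity
  have hκ1 : κ < 1 := by rw [hκ, div_lt_one hθ20]; exact hθ12
  set c0 := -(α * Real.cos (ρ * θ1)) with hc0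
  have hc0pos : 0 < c0 := by
    rw [hc0]; have := mul_neg_of_pos_of_neg hα0 hcos; linarith
  set B0 := (Cth θ2 + 1) * α * Real.exp (1 + θ2 ^ 2) with hB0
  have hB0pos : 0 < B0 := by have := Cth_nonneg hθ20.le; positivity
  set τ := c0 / (2 * B0) with hτ
  have hτ0 : 0 < τ := by positivity
  set l := τ ^ (-(κ / (1 - κ))) with hl
  have hl0 : 0 < l := Real.rpow_pos_of_pos hτ0 _
  set m1 := l * α + 2 * α with hm1
  have hm10 : 0 < m1 := by positivity
  set M := 2 * m1 / c0 with hM
  have hM0 : 0 < M := by positivity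
  refine ⟨l * α * 6 + m1 * Real.log M, ?_⟩
  intro s0 hs0
  set T := Real.exp (ρ * s0) with hT
  have hT1 : 1 ≤ T := Real.one_le_exp (by positivity)
  have hT0 : 0 < T := by linarith
  set a := α * (5 + Real.log (1 + T)) with ha
  have hlogT : 0 ≤ Real.log (1 + T) := Real.log_nonneg (by linarith)
  have ha0 : 0 ≤ a := by positivity
  obtain ⟨k0, hk0⟩ := exists_nat_ge (Real.exp (2 * s0 + 2))
  have hk0pos : 0 < k0 := by
    have : (0 : ℝ) < k0 := (Real.exp_pos _).trans_le hk0
    exact_mod_cast this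
  -- the bound for large n
  have hbound : ∀ n : ℕ, 2 * k0 ^ 2 ≤ n →
      |∑ k ∈ Finset.range (n + 1), (an n k) ^ α * (-Real.exp s0) ^ k|
        ≤ Real.exp (l * α * 6 + m1 * Real.log M - 2 * s0) := by
    intro n hn
    have hn0 : 0 < n := lt_of_lt_of_le (by positivity) hn
    obtain ⟨U, hU0, hUx⟩ := hU n hn0
    have hLr : ∀ x : ℝ, Lr U x = Real.log (∑ k ∈ Finset.range (n + 1), (an n k) ^ α * (Real.exp x) ^ k) := by
      intro x
      rw [hUx, ← exp_Lr U hU0 x, Real.log_exp]
    have hup : ∀ x : ℝ, Lr U x ≤ α * Real.exp (ρ * x) := by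
      intro x
      have h3 := poly_upper h1.le hn0 x
      rw [hUx, ← exp_Lr U hU0 x] at h3
      exact Real.exp_le_exp.1 h3
    have hlo : ∀ v : ℝ, |Lr U (s0 + v) - α * Real.exp (ρ * (s0 + v))| * Real.exp (-v ^ 2) ≤ a := by
      intro v
      set E := Real.exp (ρ * (s0 + v)) with hE
      have hE0 : 0 < E := Real.exp_pos _
      have hup' := hup (s0 + v)
      rw [← hE] at hup'
      rw [abs_of_nonpos (by linarith)]
      rcases le_or_gt E k0 with hEk | hEk
      · have h3 := poly_lower h1.le hn0 hn (s0 + v) (by rw [← hρ, ← hE]; exact hEk)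
        rw [← hρ, ← hE, ← hLr] at h3
        have hlog : Real.log (1 + E) ≤ Real.log (1 + T) + |v| := by
          have h4 : 1 + E ≤ (1 + T) * Real.exp |v| := by
            have e1 : E = T * Real.exp (ρ * v) := by rw [hE, hT, ← Real.exp_add]; ring_nf
            have h5 : Real.exp (ρ * v) ≤ Real.exp |v| := by
              apply Real.exp_le_exp.2
              calc ρ * v ≤ ρ * |v| := mul_le_mul_of_nonneg_left (le_abs_self v) hρ0.le
                _ ≤ |v| := mul_le_of_le_one_left (abs_nonneg v) hρ1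
            have h6 : 1 ≤ Real.exp |v| := Real.one_le_exp (abs_nonneg v)
            have h7 := mul_le_mul_of_nonneg_left h5 hT0.le
            rw [e1]; linarith
          have h7 := Real.log_le_log (by positivity) h4
          rwa [Real.log_mul (by positivity) (by positivity), Real.log_exp] at h7
        have h8 : -(Lr U (s0 + v) - α * E) ≤ α * (3 + Real.log (1 + T)) + α * |v| := by
          have := mul_le_mul_of_nonneg_left hlog hα0.le
          linarith
        have h9 : Real.exp (-v ^ 2) ≤ 1 := Real.exp_le_one_iff.2 (by linarith [sq_nonneg v])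
        have h10 : |v| * Real.exp (-v ^ 2) ≤ 1 := by
          have h11 : |v| ≤ Real.exp (v ^ 2) := by
            have h12 := Real.add_one_le_exp (v ^ 2)
            have h13 := sq_abs v
            have h14 := sq_nonneg (|v| - 1)
            have h15 := sq_nonneg |v|
            linarith
          calc |v| * Real.exp (-v ^ 2) ≤ Real.exp (v ^ 2) * Real.exp (-v ^ 2) :=
                mul_le_mul_of_nonneg_right h11 (Real.exp_pos _).le
            _ = 1 := by rw [← Real.exp_add]; simp
        calc -(Lr U (s0 + v) - α * E) * Real.exp (-v ^ 2)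
            ≤ (α * (3 + Real.log (1 + T)) + α * |v|) * Real.exp (-v ^ 2) :=
              mul_le_mul_of_nonneg_right h8 (Real.exp_pos _).le
          _ = α * (3 + Real.log (1 + T)) * Real.exp (-v ^ 2) + α * (|v| * Real.exp (-v ^ 2)) := by ring
          _ ≤ α * (3 + Real.log (1 + T)) * 1 + α * 1 := by
              apply add_le_add
              · exact mul_le_mul_of_nonneg_left h9 (by positivity)
              · exact mul_le_mul_of_nonneg_left h10 hα0.le
          _ ≤ a := by rw [ha]; linarith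
      · have hLr0 := Lr_nonneg U hU0 (s0 + v)
        have h3 : Real.exp (2 * s0 + 2) < E := hk0.trans_lt hEk
        have h4 : 2 * s0 + 2 < ρ * (s0 + v) := Real.exp_lt_exp.1 h3
        have hsv : 0 < s0 + v := by
          by_contra hcon
          push Not at hcon
          have := mul_nonpos_of_nonneg_of_nonpos hρ0.le hcon
          linarith
        have h4' := mul_le_of_le_one_left hsv.le hρ1
        have hv : s0 + 2 ≤ v := by linarith
        have h5 : ρ * (s0 + v) - v ^ 2 ≤ 0 := by
          have h51 := mul_le_mul_of_nonneg_right hv (show (0:ℝ) ≤ v by linarith)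
          have h52 := mul_nonneg hs0 (show (0:ℝ) ≤ v - 1 by linarith)
          linarith
        have h6 : E * Real.exp (-v ^ 2) ≤ 1 := by
          rw [hE, ← Real.exp_add]
          exact Real.exp_le_one_iff.2 (by linarith)
        calc -(Lr U (s0 + v) - α * E) * Real.exp (-v ^ 2) ≤ α * E * Real.exp (-v ^ 2) :=
              mul_le_mul_of_nonneg_right (by linarith) (Real.exp_pos _).le
          _ = α * (E * Real.exp (-v ^ 2)) := by ring
          _ ≤ α * 1 := mul_le_mul_of_nonneg_left h6 hα0.le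
          _ ≤ a := by
              rw [ha]; exact mul_le_mul_of_nonneg_left (by linarith) hα0.le
    have hstrip := strip_bound hα0 hρ0 hρ1 hθ10 hθ12 hθ2b U hU0 s0 a hup hlo
    rw [← hκ, ← hB0, ← hT] at hstrip
    have hy := young ha0 (show 0 ≤ B0 * T by positivity) hκ0 hκ1 hτ0
    rw [← hl] at hy
    have hτb : τ * (B0 * T) = c0 / 2 * T := by rw [hτ]; field_simp
    rw [hτb] at hy
    have hre : (Lm U (s0 + θ1 * Complex.I)).re ≤ -(c0 / 2) * T + l * a := by
      have h3 : (Lm U (s0 + θ1 * Complex.I) - α * Complex.exp (ρ * (s0 + θ1 * Complex.I))).re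
          ≤ a ^ (1 - κ) * (B0 * T) ^ κ := (Complex.re_le_norm _).trans hstrip
      have h4 : ((α : ℂ) * Complex.exp (ρ * (s0 + θ1 * Complex.I))).re = - c0 * T := by
        have e : (ρ : ℂ) * (s0 + θ1 * Complex.I) = ((ρ * s0 : ℝ) : ℂ) + ((ρ * θ1 : ℝ) : ℂ) * Complex.I := by
          push_cast; ring
        rw [e, Complex.re_ofReal_mul, Complex.exp_re]
        simp only [Complex.add_re, Complex.ofReal_re, Complex.mul_re, Complex.I_re, mul_zero,
          Complex.ofReal_im, Complex.I_im, mul_one, sub_self, add_zero, Complex.add_im,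
          Complex.mul_im, zero_add]
        rw [hc0, hT]; ring
      rw [Complex.sub_re, h4] at h3
      linarith
    have hneg := neg_le_ray U hU0 (s := s0) (θ := θ1) (by rw [abs_of_pos hθ10]; exact hθ1b)
    have e : ∑ k ∈ Finset.range (n + 1), (an n k) ^ α * (-Real.exp s0) ^ k
        = (U.map (fun u => 1 - u * Real.exp s0)).prod := by
      rw [hUx]; congr 1
      apply Multiset.map_congr rfl
      intro u _; ring
    rw [e]
    refine hneg.trans (Real.exp_le_exp.2 (hre.trans ?_))
    -- final numeric inequality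
    have hlogT2 : Real.log (1 + T) ≤ 1 + Real.log T := by
      have h3 : Real.log (1 + T) ≤ Real.log (2 * T) := Real.log_le_log (by positivity) (by linarith)
      rw [Real.log_mul (by norm_num) hT0.ne'] at h3
      have h4 := Real.log_two_lt_d9
      linarith
    have hlogTs : Real.log T = ρ * s0 := by rw [hT, Real.log_exp]
    have h2s : 2 * s0 = 2 * α * Real.log T := by rw [hlogTs, hρ]; field_simp
    have hlogM : m1 * Real.log T ≤ c0 / 2 * T + m1 * Real.log M := by
      have h3 := Real.log_le_sub_one_of_pos (show 0 < T / M by positivity)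
      rw [Real.log_div hT0.ne' hM0.ne'] at h3
      have h4 : m1 * (T / M) = c0 / 2 * T := by rw [hM]; field_simp
      have h5 := mul_le_mul_of_nonneg_left h3 hm10.le
      linarith
    rw [h2s, ha]
    have h6 : l * (α * (5 + Real.log (1 + T))) ≤ l * α * 6 + l * α * Real.log T := by
      have : l * α * (Real.log (1 + T)) ≤ l * α * (1 + Real.log T) :=
        mul_le_mul_of_nonneg_left hlogT2 (by positivity)
      linarith
    have h7 : m1 * Real.log T = l * α * Real.log T + 2 * α * Real.log T := by rw [hm1]; ring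
    linarith
  -- pass to the limit
  have hlim := poly_tendsto h1.le (-Real.exp s0)
  have : Tendsto (fun n : ℕ => |∑ k ∈ Finset.range (n + 1), (an n k) ^ α * (-Real.exp s0) ^ k|)
      atTop (𝓝 |∑' k : ℕ, bb α k * (-Real.exp s0) ^ k|) := hlim.abs
  have h3 := le_of_tendsto this (eventually_atTop.2 ⟨2 * k0 ^ 2, hbound⟩)
  exact h3

/-- no exponent strictly between one and two is possible -/
theorem exclude {F : ℝ → ℝ} (hF : ∀ t, 0 ≤ t → 0 ≤ F t) (h0 : F 0 = 0) (hpres : Preserves F)
    {c α : ℝ} (hc : 0 < c) (hform : ∀ t, 0 < t → F t = c * t ^ α) (h1 : 1 < α) (h2 : α < 2) :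
    False := by
  have hα0 : 0 < α := by linarith
  have hform' : ∀ t, 0 ≤ t → F t = c * t ^ α := by
    intro t ht
    rcases eq_or_lt_of_le ht with h | h
    · rw [← h, h0, Real.zero_rpow hα0.ne', mul_zero]
    · exact hform t h
  have hU : ∀ n : ℕ, 0 < n → ∃ U : Multiset ℝ, (∀ u ∈ U, 0 ≤ u) ∧
      ∀ x : ℝ, ∑ k ∈ Finset.range (n + 1), (an n k) ^ α * x ^ k
        = (U.map (fun u => 1 + u * x)).prod := by
    intro n hn
    have hn' : (0 : ℝ) < 1 / (n : ℝ) := by
      have : (0 : ℝ) < n := by exact_mod_cast hn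
      positivity
    set p : ℝ[X] := (1 + C (1 / (n : ℝ)) * X) ^ n with hp
    have hpp : PosCoeffs p := posCoeffs_pow (posCoeffs_lin hn') n
    have hpr : RealRooted p := Or.inr (realRooted_pow (realRooted_lin hn') n)
    have hcoef : ∀ k, (coeffMap F p).coeff k = c * (an n k) ^ α := by
      intro k
      rw [coeffMap_coeff F h0, hp, coeff_lin_pow, ← an, hform' _ (an_nonneg n k)]
    have hc00 : (coeffMap F p).coeff 0 = c := by
      rw [hcoef]; simp [an]
    obtain ⟨U, hU0, hUx⟩ := root_form (coeffMap F p) (hpres p hpp hpr)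
      (fun k => by rw [hcoef]; have := Real.rpow_nonneg (an_nonneg n k) α; positivity)
      (by rw [hc00]; exact hc)
    refine ⟨U, hU0, ?_⟩
    intro x
    have h3 := hUx x
    rw [hc00, eval_sum (N := n + 1) (fun k hk => by
      rw [hcoef, an_zero (by omega), Real.zero_rpow hα0.ne', mul_zero])] at h3
    simp only [hcoef] at h3
    have h4 : ∑ k ∈ Finset.range (n + 1), c * (an n k) ^ α * x ^ k
        = c * ∑ k ∈ Finset.range (n + 1), (an n k) ^ α * x ^ k := by
      rw [Finset.mul_sum]; exact Finset.sum_congr rfl (fun k _ => by ring)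
    rw [h4] at h3
    exact mul_left_cancel₀ hc.ne' h3
  obtain ⟨K, hK⟩ := decay h1 h2 hU
  set G1 := ∑' k : ℕ, bb α k * (1 : ℝ) ^ k with hG1
  have hG10 : 0 ≤ G1 := tsum_nonneg (fun k => by have := bb_pos α k; positivity)
  have hsmall : ∀ w : ℝ, w ≤ 0 → |gg α (Real.exp w)| ≤ G1 := by
    intro w hw
    have hs := bb_summable h1.le (1 : ℝ)
    rw [gg, ← Real.norm_eq_abs]
    apply tsum_of_norm_bounded hs.hasSum
    intro k
    rw [norm_mul, norm_pow, norm_neg, Real.norm_of_nonneg (bb_pos α k).le,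
      Real.norm_of_nonneg (Real.exp_pos w).le, one_pow]
    exact mul_le_mul_of_nonneg_left (pow_le_one₀ (Real.exp_pos w).le (Real.exp_le_one_iff.2 hw))
      (bb_pos α k).le
  apply no_decay h1 h2 (gg_measurable h1.le) (C := max (Real.exp K) G1)
  intro w
  rw [abs_mul, abs_of_pos (Real.exp_pos w)]
  rcases le_total 0 w with hw | hw
  · rw [abs_of_nonneg hw]
    calc Real.exp w * |gg α (Real.exp w)| ≤ Real.exp w * Real.exp (K - 2 * w) :=
          mul_le_mul_of_nonneg_left (hK w hw) (Real.exp_pos w).le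
      _ = Real.exp K * Real.exp (-w) := by rw [← Real.exp_add, ← Real.exp_add]; ring_nf
      _ ≤ _ := mul_le_mul_of_nonneg_right (le_max_left _ _) (Real.exp_pos _).le
  · rw [abs_of_nonpos hw, neg_neg]
    calc Real.exp w * |gg α (Real.exp w)| ≤ Real.exp w * G1 :=
          mul_le_mul_of_nonneg_left (hsmall w hw) (Real.exp_pos w).le
      _ = G1 * Real.exp w := mul_comm _ _
      _ ≤ _ := mul_le_mul_of_nonneg_right (le_max_right _ _) (Real.exp_pos _).le

/-- The classification of possible preservers. -/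
theorem classification {F : ℝ → ℝ} (hF : ∀ t, 0 ≤ t → 0 ≤ F t) (h0 : F 0 = 0)
    (hpres : Preserves F) :
    (∀ t, 0 ≤ t → F t = 0) ∨
    ∃ c α : ℝ, 0 < c ∧ (α = 1 ∨ 2 ≤ α) ∧ ∀ t, 0 ≤ t → F t = c * t ^ α := by
  by_cases hne : ∃ t, 0 < t ∧ F t ≠ 0
  · right
    obtain ⟨c, α, hc, hα, hform⟩ := power_law hF h0 hpres hne
    refine ⟨c, α, hc, ?_, ?_⟩
    · by_contra hcon
      push Not at hcon
      exact exclude hF h0 hpres hc hform (lt_of_le_of_ne hα (Ne.symm hcon.1)) hcon.2
    · intro t ht
      rcases eq_or_lt_of_le ht with h | h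
      · rw [← h, h0, Real.zero_rpow (by linarith), mul_zero]
      · exact hform t h
  · left
    push Not at hne
    intro t ht
    rcases eq_or_lt_of_le ht with h | h
    · rw [← h, h0]
    · exact hne t h

end H775R2.RR
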