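import Pool.Agent.H775R2.RR.Newton

namespace H775R2.RR

open Polynomial

/-- the Euler operator -/
noncomputable def eu (P : ℝ[X]) : ℝ[X] := X * derivative P

lemma eu_coeff (P : ℝ[X]) (k : ℕ) : (eu P).coeff k = k * P.coeff k := by
  unfold eu
  rcases k with _ | k
  · simp
  · rw [coeff_X_mul, coeff_derivative]; push_cast; ring

lemma eval_sum {P : ℝ[X]} {N : ℕ} (h : ∀ k, N ≤ k → P.coeff k = 0) (x : ℝ) :
    P.eval x = ∑ k ∈ Finset.range N, P.coeff k * x ^ k := by
  have h1 : P.eval x = ∑ k ∈ Finset.range (max N (P.natDegree + 1)), P.coeff k * x ^ k :=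
    eval_eq_sum_range' (by omega) x
  rw [h1]
  symm
  apply Finset.sum_subset
  · intro k hk; rw [Finset.mem_range] at *; omega
  · intro k _ hk
    rw [h k (by simpa using hk), zero_mul]

/-- `∑ 1/(x - r)` -/
noncomputable def S1 (s : Multiset ℝ) (x : ℝ) : ℝ := (s.map (fun r => 1 / (x - r))).sum

/-- `∑ 1/(x - r)^2` -/
noncomputable def S2 (s : Multiset ℝ) (x : ℝ) : ℝ := (s.map (fun r => 1 / (x - r) ^ 2)).sum

lemma prod_derivs (s : Multiset ℝ) (hs : ∀ r ∈ s, r ≤ 0) (x : ℝ) (hx : 0 < x) :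
    0 < eval x (s.map (fun r => X - C r)).prod ∧
    eval x (derivative (s.map (fun r => X - C r)).prod)
      = eval x (s.map (fun r => X - C r)).prod * S1 s x ∧
    eval x (derivative (derivative (s.map (fun r => X - C r)).prod))
      = eval x (s.map (fun r => X - C r)).prod * (S1 s x ^ 2 - S2 s x) := by
  induction s using Multiset.induction_on with
  | empty => simp [S1, S2]
  | cons r s ih =>
    obtain ⟨h1, h2, h3⟩ := ih (fun y hy => hs y (Multiset.mem_cons_of_mem hy))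
    have hr := hs r (Multiset.mem_cons_self r s)
    have hxr : 0 < x - r := by linarith
    have e1 : S1 (r ::ₘ s) x = 1 / (x - r) + S1 s x := by simp [S1]
    have e2 : S2 (r ::ₘ s) x = 1 / (x - r) ^ 2 + S2 s x := by simp [S2]
    rw [Multiset.map_cons, Multiset.prod_cons, e1, e2]
    set Q := (s.map (fun r => X - C r)).prod
    refine ⟨?_, ?_, ?_⟩
    · rw [eval_mul]; simp only [eval_sub, eval_X, eval_C]; positivity
    · simp only [derivative_mul, eval_add, eval_mul, derivative_sub, derivative_X, derivative_C,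
        sub_zero, eval_one, eval_sub, eval_X, eval_C, one_mul, h2]
      field_simp
    · simp only [derivative_mul, eval_add, eval_mul, derivative_sub, derivative_X, derivative_C,
        sub_zero, eval_sub, eval_X, eval_C, one_mul, h2, h3, derivative_add]
      field_simp
      ring

lemma S_ineq (s : Multiset ℝ) (hs : ∀ r ∈ s, r ≤ 0) {a b : ℝ} (ha : 0 < a) (hab : a < b) :
    b * S1 s b - a * S1 s a ≤ (b / a - 1) * (a * S1 s a - a ^ 2 * S2 s a) := by
  induction s using Multiset.induction_on with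
  | empty => simp [S1, S2]
  | cons r s ih =>
    have h1 := ih (fun y hy => hs y (Multiset.mem_cons_of_mem hy))
    have hr := hs r (Multiset.mem_cons_self r s)
    have hb : 0 < b := ha.trans hab
    have e1 : ∀ x, S1 (r ::ₘ s) x = 1 / (x - r) + S1 s x := by intro x; simp [S1]
    have e2 : ∀ x, S2 (r ::ₘ s) x = 1 / (x - r) ^ 2 + S2 s x := by intro x; simp [S2]
    rw [e1, e1, e2]
    have key : b * (1 / (b - r)) - a * (1 / (a - r))
        ≤ (b / a - 1) * (a * (1 / (a - r)) - a ^ 2 * (1 / (a - r) ^ 2)) := by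
      have h1 : 0 < a - r := by linarith
      have h2 : 0 < b - r := by linarith
      have l : b * (1 / (b - r)) - a * (1 / (a - r)) = (-r) * (b - a) / ((b - r) * (a - r)) := by
        field_simp; ring
      have rr : (b / a - 1) * (a * (1 / (a - r)) - a ^ 2 * (1 / (a - r) ^ 2))
          = (-r) * (b - a) / ((a - r) * (a - r)) := by
        field_simp; ring
      rw [l, rr]
      apply div_le_div_of_nonneg_left
      · apply mul_nonneg <;> linarith
      · positivity
      · apply mul_le_mul_of_nonneg_right _ h1.le; linarith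
    nlinarith [key, h1]

/-- The mean at `b` exceeds the mean at `a` by at most `(b/a - 1)` times the variance at `a`. -/
lemma mean_ineq (P : ℝ[X]) (hP : P ≠ 0) (h : RealRooted P) (hc : ∀ k, 0 ≤ P.coeff k) {a b : ℝ}
    (ha : 0 < a) (hab : a < b) :
    0 < eval a P ∧ 0 < eval b P ∧ eval b (eu P) / eval b P - eval a (eu P) / eval a P ≤
      (b / a - 1) * (eval a (eu (eu P)) / eval a P - (eval a (eu P) / eval a P) ^ 2) := by
  obtain ⟨s, hs, hlc, hPs⟩ := factor_nonneg P hP h hc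
  set Q := (s.map (fun r => X - C r)).prod with hQ
  set l := P.leadingCoeff with hl
  have hev : ∀ x, eval x P = l * eval x Q := by intro x; rw [hPs]; simp
  have hd1 : ∀ x, 0 < x → eval x (eu P) = x * S1 s x * eval x P := by
    intro x hx
    obtain ⟨_, h2, _⟩ := prod_derivs s hs x hx
    have : eval x (eu P) = x * (l * eval x (derivative Q)) := by
      unfold eu; rw [hPs]; simp
    rw [this, h2, hev]; ring
  have hd2 : ∀ x, 0 < x → eval x (eu (eu P))
      = (x * S1 s x - x ^ 2 * S2 s x + (x * S1 s x) ^ 2) * eval x P := by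
    intro x hx
    obtain ⟨_, h2, h3⟩ := prod_derivs s hs x hx
    have : eval x (eu (eu P)) = x * (l * eval x (derivative Q)
        + x * (l * eval x (derivative (derivative Q)))) := by
      unfold eu; rw [hPs]; simp [derivative_mul]
    rw [this, h2, h3, hev]; ring
  have hpos : ∀ x, 0 < x → 0 < eval x P := by
    intro x hx
    rw [hev]; exact mul_pos hlc (prod_derivs s hs x hx).1
  have hb := ha.trans hab
  refine ⟨hpos a ha, hpos b hb, ?_⟩
  rw [hd1 a ha, hd1 b hb, hd2 a ha, mul_div_cancel_right₀ _ (hpos b hb).ne',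
    mul_div_cancel_right₀ _ (hpos a ha).ne', mul_div_cancel_right₀ _ (hpos a ha).ne']
  have := S_ineq s hs ha hab
  linarith

/-- summation bound around the central index -/
lemma central_sum {q : ℝ} (hq0 : 0 ≤ q) (hq1 : q < 1) :
    ∃ K : ℝ, 0 ≤ K ∧ ∀ (m : ℕ) (y : ℕ → ℝ) (A : ℝ), 0 ≤ A →
      (∀ j, y (m + j) ≤ A * q ^ j) → (∀ j ≤ m, y (m - j) ≤ A * q ^ j) →
      ∑ k ∈ Finset.range (2 * m + 1), ((k : ℝ) - m) ^ 2 * y k ≤ A * K := by
  have hs : Summable (fun j : ℕ => (j : ℝ) ^ 2 * q ^ j) :=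
    summable_pow_mul_geometric_of_norm_lt_one 2 (by rwa [Real.norm_of_nonneg hq0])
  have hnn : ∀ j : ℕ, 0 ≤ (j : ℝ) ^ 2 * q ^ j := fun j => by positivity
  refine ⟨2 * ∑' j : ℕ, (j : ℝ) ^ 2 * q ^ j,
    mul_nonneg zero_le_two (tsum_nonneg hnn), ?_⟩
  intro m y A hA h1 h2
  have hsplit : ∑ k ∈ Finset.range (2 * m + 1), ((k : ℝ) - m) ^ 2 * y k
      = ∑ k ∈ Finset.range m, ((k : ℝ) - m) ^ 2 * y k
        + ∑ j ∈ Finset.range (m + 1), (((m + j : ℕ) : ℝ) - m) ^ 2 * y (m + j) := by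
    have : 2 * m + 1 = m + (m + 1) := by ring
    rw [this, Finset.sum_range_add]
  rw [hsplit]
  have hT : ∀ n, ∑ j ∈ Finset.range n, A * ((j : ℝ) ^ 2 * q ^ j)
      ≤ A * ∑' j : ℕ, (j : ℝ) ^ 2 * q ^ j := by
    intro n
    rw [← Finset.mul_sum]
    exact mul_le_mul_of_nonneg_left (hs.sum_le_tsum _ (fun i _ => hnn i)) hA
  have hR : ∑ j ∈ Finset.range (m + 1), (((m + j : ℕ) : ℝ) - m) ^ 2 * y (m + j)
      ≤ A * ∑' j : ℕ, (j : ℝ) ^ 2 * q ^ j := by
    refine le_trans (Finset.sum_le_sum ?_) (hT (m + 1))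
    intro j _
    have : (((m + j : ℕ) : ℝ) - m) = j := by push_cast; ring
    rw [this]
    have := mul_le_mul_of_nonneg_left (h1 j) (show (0:ℝ) ≤ (j : ℝ) ^ 2 by positivity)
    linarith
  have hL : ∑ k ∈ Finset.range m, ((k : ℝ) - m) ^ 2 * y k
      ≤ A * ∑' j : ℕ, (j : ℝ) ^ 2 * q ^ j := by
    rw [← Finset.sum_range_reflect]
    refine le_trans ?_ (hT (m + 1))
    rw [Finset.sum_range_succ' (fun j : ℕ => A * ((j : ℝ) ^ 2 * q ^ j)) m]
    have h0 : A * (((0 : ℕ) : ℝ) ^ 2 * q ^ 0) = 0 := by simp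
    rw [h0, add_zero]
    apply Finset.sum_le_sum
    intro j hj
    rw [Finset.mem_range] at hj
    have e : m - 1 - j = m - (j + 1) := by omega
    rw [e]
    have e2 : (((m - (j + 1) : ℕ) : ℝ) - m) ^ 2 = ((j + 1 : ℕ) : ℝ) ^ 2 := by
      rw [Nat.cast_sub (by omega)]; push_cast; ring
    rw [e2]
    have := mul_le_mul_of_nonneg_left (h2 (j + 1) (by omega))
      (show (0:ℝ) ≤ ((j + 1 : ℕ) : ℝ) ^ 2 by positivity)
    linarith
  linarith

/-- mass is near the end when the sequence doubles -/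
lemma doubling (Y : ℕ → ℝ) (hY : ∀ k, 0 ≤ Y k) (N : ℕ) (h : ∀ k < N, 2 * Y k ≤ Y (k + 1)) :
    ∑ k ∈ Finset.range N, Y k ≤ Y N ∧
    ∑ k ∈ Finset.range N, ((N : ℝ) - 1 - k) * Y k ≤ Y N := by
  induction N with
  | zero => simp [hY 0]
  | succ N ih =>
    obtain ⟨h1, h2⟩ := ih (fun k hk => h k (by omega))
    have h3 := h N (by omega)
    refine ⟨?_, ?_⟩
    · rw [Finset.sum_range_succ]; linarith
    · rw [Finset.sum_range_succ]
      have e1 : (((N + 1 : ℕ) : ℝ) - 1 - N) * Y N = 0 := by push_cast; ring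
      rw [e1, add_zero]
      have e2 : ∑ k ∈ Finset.range N, (((N + 1 : ℕ) : ℝ) - 1 - k) * Y k
          = ∑ k ∈ Finset.range N, ((N : ℝ) - 1 - k) * Y k + ∑ k ∈ Finset.range N, Y k := by
        rw [← Finset.sum_add_distrib]
        apply Finset.sum_congr rfl
        intro k _; push_cast; ring
      rw [e2]; linarith

lemma doubling' (Y : ℕ → ℝ) (hY : ∀ k, 0 ≤ Y k) (N R : ℕ) (hR : N < R)
    (h : ∀ k < N, 2 * Y k ≤ Y (k + 1)) :
    0 ≤ ∑ k ∈ Finset.range R, ((k : ℝ) - (N - 1)) * Y k := by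
  obtain ⟨_, h2⟩ := doubling Y hY N h
  obtain ⟨d, rfl⟩ : ∃ d, R = N + (d + 1) := ⟨R - N - 1, by omega⟩
  rw [Finset.sum_range_add, Finset.sum_range_succ']
  have e1 : ∑ k ∈ Finset.range N, ((k : ℝ) - (N - 1)) * Y k
      = - ∑ k ∈ Finset.range N, ((N : ℝ) - 1 - k) * Y k := by
    rw [← Finset.sum_neg_distrib]
    apply Finset.sum_congr rfl
    intro k _; ring
  have e2 : 0 ≤ ∑ k ∈ Finset.range d, (((N + (k + 1) : ℕ) : ℝ) - (N - 1)) * Y (N + (k + 1)) := by
    apply Finset.sum_nonneg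
    intro k _
    apply mul_nonneg _ (hY _)
    push_cast; linarith [Nat.cast_nonneg (α := ℝ) k]
  have e3 : (((N + 0 : ℕ) : ℝ) - (N - 1)) * Y (N + 0) = Y N := by push_cast; simp
  rw [e1, e3]
  linarith

end H775R2.RR
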