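import Mathlib

namespace H775R2.RR

open MeasureTheory Filter Set

/-- `(k!)^{-α}` -/
noncomputable def bb (α : ℝ) (k : ℕ) : ℝ := ((k.factorial : ℝ)) ^ (-α)

/-- the Le Roy function on the negative axis: `g y = ∑ (-y)^k / (k!)^α` -/
noncomputable def gg (α : ℝ) (y : ℝ) : ℝ := ∑' k : ℕ, bb α k * (-y) ^ k

lemma bb_pos (α : ℝ) (k : ℕ) : 0 < bb α k :=
  Real.rpow_pos_of_pos (by exact_mod_cast k.factorial_pos) _

lemma bb_le {α : ℝ} (hα : 1 ≤ α) (k : ℕ) : bb α k ≤ 1 / (k.factorial : ℝ) := by
  unfold bb
  have h1 : (1 : ℝ) ≤ k.factorial := by exact_mod_cast k.factorial_pos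
  rw [one_div, ← Real.rpow_neg_one]
  exact Real.rpow_le_rpow_of_exponent_le h1 (by linarith)

lemma bb_succ (α : ℝ) (k : ℕ) : bb α (k + 1) = bb α k * ((k : ℝ) + 1) ^ (-α) := by
  unfold bb
  rw [Nat.factorial_succ, Nat.cast_mul, mul_comm, Real.mul_rpow (by positivity) (by positivity)]
  push_cast; ring

lemma bb_summable {α : ℝ} (hα : 1 ≤ α) (x : ℝ) : Summable (fun k : ℕ => bb α k * x ^ k) := by
  apply Summable.of_norm
  apply Summable.of_nonneg_of_le (fun _ => norm_nonneg _) _ (Real.summable_pow_div_factorial |x|)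
  intro k
  rw [norm_mul, Real.norm_of_nonneg (bb_pos α k).le, norm_pow, Real.norm_eq_abs]
  have := mul_le_mul_of_nonneg_right (bb_le hα k) (show 0 ≤ |x| ^ k by positivity)
  rw [one_div_mul_eq_div] at this
  exact this

/-- the integral equation -/
lemma integral_eq {α : ℝ} (hα : 1 ≤ α) (l : ℝ) :
    ∫ t in Ioi (0 : ℝ), t ^ (α - 1) * (Real.exp (l - t) * gg α (Real.exp (l - t)))
      = Real.Gamma α * (1 - gg α (Real.exp l)) := by
  have hα0 : 0 < α := by linarith
  set Fj : ℕ → ℝ → ℝ := fun j t =>
    (bb α j * (-1) ^ j * Real.exp l ^ (j + 1)) * (t ^ (α - 1) * Real.exp (-(((j : ℝ) + 1) * t)))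
    with hFj
  have hint : ∀ j : ℕ, IntegrableOn (fun t : ℝ => t ^ (α - 1) * Real.exp (-(((j : ℝ) + 1) * t)))
      (Ioi 0) := by
    intro j
    have h1 := Real.integral_rpow_mul_exp_neg_mul_Ioi hα0 (show 0 < (j : ℝ) + 1 by positivity)
    by_contra hcon
    rw [IntegrableOn] at hcon
    have h2 := integral_undef hcon
    rw [h1] at h2
    have h3 : 0 < (1 / ((j : ℝ) + 1)) ^ α * Real.Gamma α :=
      mul_pos (Real.rpow_pos_of_pos (by positivity) _) (Real.Gamma_pos_of_pos hα0)
    linarith
  have hval : ∀ j : ℕ, ∫ t in Ioi (0 : ℝ), Fj j t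
      = - (Real.Gamma α * (bb α (j + 1) * (-Real.exp l) ^ (j + 1))) := by
    intro j
    simp only [hFj]
    rw [integral_const_mul, Real.integral_rpow_mul_exp_neg_mul_Ioi hα0
      (show 0 < (j : ℝ) + 1 by positivity), bb_succ, neg_pow (Real.exp l), one_div,
      Real.inv_rpow (by positivity), Real.rpow_neg (by positivity)]
    ring
  have hnorm : ∀ j : ℕ, ∫ t in Ioi (0 : ℝ), ‖Fj j t‖
      = Real.Gamma α * (bb α (j + 1) * Real.exp l ^ (j + 1)) := by
    intro j
    have e : ∀ t ∈ Ioi (0 : ℝ), ‖Fj j t‖ = (bb α j * Real.exp l ^ (j + 1))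
        * (t ^ (α - 1) * Real.exp (-(((j : ℝ) + 1) * t))) := by
      intro t ht
      have ht0 : (0 : ℝ) < t := ht
      simp only [hFj]
      rw [norm_mul, norm_mul, norm_mul, norm_pow, norm_neg, norm_one, one_pow, mul_one,
        Real.norm_of_nonneg (bb_pos α j).le,
        Real.norm_of_nonneg (show (0:ℝ) ≤ Real.exp l ^ (j+1) by positivity),
        Real.norm_of_nonneg (show 0 ≤ t ^ (α - 1) * Real.exp (-(((j : ℝ) + 1) * t)) by positivity)]
    rw [setIntegral_congr_fun measurableSet_Ioi e, integral_const_mul,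
      Real.integral_rpow_mul_exp_neg_mul_Ioi hα0 (show 0 < (j : ℝ) + 1 by positivity), bb_succ,
      one_div, Real.inv_rpow (by positivity), Real.rpow_neg (by positivity)]
    ring
  have hsum : Summable (fun j : ℕ => ∫ t in Ioi (0 : ℝ), ‖Fj j t‖) := by
    simp only [hnorm]
    exact ((summable_nat_add_iff 1).2 (bb_summable hα (Real.exp l))).mul_left _
  have hmain := hasSum_integral_of_summable_integral_norm (μ := volume.restrict (Ioi (0 : ℝ)))
    (F := Fj) (fun j => (hint j).const_mul _) hsum
  have hpt : ∀ t ∈ Ioi (0 : ℝ), ∑' j, Fj j t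
      = t ^ (α - 1) * (Real.exp (l - t) * gg α (Real.exp (l - t))) := by
    intro t _
    rw [gg, ← tsum_mul_left, ← tsum_mul_left]
    apply tsum_congr
    intro j
    simp only [hFj]
    have e1 : Real.exp (l - t) = Real.exp l * Real.exp (-t) := by rw [← Real.exp_add]; ring_nf
    have e2 : Real.exp (-(((j : ℝ) + 1) * t)) = Real.exp (-t) ^ (j + 1) := by
      rw [← Real.exp_nat_mul]; congr 1; push_cast; ring
    rw [e1, e2, neg_pow (Real.exp l * Real.exp (-t)), mul_pow, pow_succ (Real.exp l),
      pow_succ (Real.exp (-t))]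
    ring
  rw [setIntegral_congr_fun measurableSet_Ioi hpt] at hmain
  rw [← hmain.tsum_eq]
  simp only [hval]
  rw [tsum_neg, tsum_mul_left]
  have h0 : gg α (Real.exp l) = 1 + ∑' j : ℕ, bb α (j + 1) * (-Real.exp l) ^ (j + 1) := by
    rw [gg, (bb_summable hα (-Real.exp l)).tsum_eq_zero_add]
    simp [bb]
  rw [h0]; ring

lemma rpow_lip {β t l : ℝ} (hβ0 : 0 < β) (hβ1 : β ≤ 1) (ht : 0 < t) (hl : 0 < l) :
    |t ^ β - l ^ β| ≤ l ^ (β - 1) * |t - l| := by
  have hs : 0 < t / l := by positivity
  have e1 : t ^ β = l ^ β * (t / l) ^ β := by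
    rw [← Real.mul_rpow hl.le hs.le]; congr 1; field_simp
  have hb : |(t / l) ^ β - 1| ≤ |t / l - 1| := by
    rcases le_total 1 (t / l) with h | h
    · have h1 : 1 ≤ (t / l) ^ β := Real.one_le_rpow h hβ0.le
      have h2 : (t / l) ^ β ≤ t / l := by
        calc (t / l) ^ β ≤ (t / l) ^ (1 : ℝ) := Real.rpow_le_rpow_of_exponent_le h hβ1
          _ = t / l := Real.rpow_one _
      rw [abs_of_nonneg (by linarith), abs_of_nonneg (by linarith)]; linarith
    · have h1 : (t / l) ^ β ≤ 1 := Real.rpow_le_one hs.le h hβ0.le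
      have h2 : t / l ≤ (t / l) ^ β := by
        calc t / l = (t / l) ^ (1 : ℝ) := (Real.rpow_one _).symm
          _ ≤ (t / l) ^ β := Real.rpow_le_rpow_of_exponent_ge hs h hβ1
      rw [abs_of_nonpos (by linarith), abs_of_nonpos (by linarith)]; linarith
  have e2 : l ^ (β - 1) * |t - l| = l ^ β * |t / l - 1| := by
    have : t - l = l * (t / l - 1) := by field_simp
    rw [this, abs_mul, abs_of_pos hl, Real.rpow_sub_one hl.ne']
    field_simp
  rw [e2, e1]
  have e3 : l ^ β * (t / l) ^ β - l ^ β = l ^ β * ((t / l) ^ β - 1) := by ring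
  rw [e3, abs_mul, abs_of_pos (Real.rpow_pos_of_pos hl β)]
  exact mul_le_mul_of_nonneg_left hb (Real.rpow_pos_of_pos hl β).le

lemma integrable_exp_abs {a : ℝ} (ha : 0 < a) : Integrable (fun w : ℝ => Real.exp (-(a * |w|))) := by
  rw [← integrableOn_univ, ← Iic_union_Ioi (a := (0 : ℝ))]
  apply IntegrableOn.union
  · have h := integrableOn_exp_mul_Iic ha 0
    apply h.congr_fun _ measurableSet_Iic
    intro w hw
    have : w ≤ 0 := hw
    simp only [abs_of_nonpos this]; ring_nf
  · have h := integrableOn_exp_mul_Ioi (neg_lt_zero.2 ha) 0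
    apply h.congr_fun _ measurableSet_Ioi
    intro w hw
    have : 0 < w := hw
    simp only [abs_of_pos this]; ring_nf

/-- If `g y = O(y^{-2})`, the integral equation is contradictory for `1 < α < 2`. -/
theorem no_decay {α : ℝ} (h1 : 1 < α) (h2 : α < 2) (hmeas : Measurable (gg α)) {C : ℝ}
    (hC : ∀ w : ℝ, |Real.exp w * gg α (Real.exp w)| ≤ C * Real.exp (-|w|)) : False := by
  set β := α - 1 with hβ
  have hβ0 : 0 < β := by linarith
  have hβ1 : β < 1 := by linarith
  set q : ℝ → ℝ := fun w => Real.exp w * gg α (Real.exp w) with hq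
  have hqm : Measurable q := by
    simp only [hq]
    exact Real.measurable_exp.mul (hmeas.comp Real.measurable_exp)
  have hC0 : 0 ≤ C := by
    have := hC 0
    simp at this
    exact (abs_nonneg _).trans this
  have hqI : Integrable q := by
    have h := (integrable_exp_abs one_pos).const_mul C
    apply h.mono' hqm.aestronglyMeasurable
    filter_upwards with w
    rw [Real.norm_eq_abs, one_mul]
    exact hC w
  have hwqI : Integrable (fun w => |w| * |q w|) := by
    have h := (integrable_exp_abs (a := 1 / 2) (by norm_num)).const_mul (2 * C)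
    apply h.mono' (by fun_prop)
    filter_upwards with w
    rw [Real.norm_eq_abs, abs_mul, abs_abs, abs_abs]
    have e1 : |w| ≤ 2 * Real.exp (1 / 2 * |w|) := by
      have := Real.add_one_le_exp (1 / 2 * |w|)
      linarith
    calc |w| * |q w| ≤ (2 * Real.exp (1 / 2 * |w|)) * (C * Real.exp (-|w|)) :=
          mul_le_mul e1 (hC w) (abs_nonneg _) (by positivity)
      _ = 2 * C * (Real.exp (1 / 2 * |w|) * Real.exp (-|w|)) := by ring
      _ = 2 * C * Real.exp (-(1 / 2 * |w|)) := by rw [← Real.exp_add]; ring_nf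
  set M := ∫ w, |w| * |q w| with hM
  have hM0 : 0 ≤ M := integral_nonneg (fun w => by positivity)
  set J0 := ∫ w, q w with hJ0
  set I : ℝ → ℝ := fun l => ∫ t in Ioi (0 : ℝ), q (l - t) with hI
  set Ψ : ℝ → ℝ := fun l => ∫ t in Ioi (0 : ℝ), t ^ β * q (l - t) with hΨ
  have hΨeq : ∀ l, Ψ l = Real.Gamma α * (1 - gg α (Real.exp l)) := fun l => integral_eq h1.le l
  have hql : ∀ l, Integrable (fun t => q (l - t)) := fun l => hqI.comp_sub_left l
  have hwql : ∀ l, Integrable (fun t => |l - t| * |q (l - t)|) := fun l => hwqI.comp_sub_left l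
  -- comparison of Ψ and l^β I
  have hcomp : ∀ l, 0 < l → |Ψ l - l ^ β * I l| ≤ l ^ (β - 1) * M := by
    intro l hl
    have hlip : ∀ t ∈ Ioi (0 : ℝ), |(t ^ β - l ^ β) * q (l - t)|
        ≤ l ^ (β - 1) * (|l - t| * |q (l - t)|) := by
      intro t ht
      rw [abs_mul]
      have := mul_le_mul_of_nonneg_right (rpow_lip hβ0 hβ1.le ht hl) (abs_nonneg (q (l - t)))
      rw [abs_sub_comm t l] at this
      linarith
    have hi1 : IntegrableOn (fun t => (t ^ β - l ^ β) * q (l - t)) (Ioi 0) := by
      have h := ((hwql l).const_mul (l ^ (β - 1))).integrableOn (s := Ioi (0 : ℝ))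
      apply Integrable.mono' h
      · apply Measurable.aestronglyMeasurable
        have : Measurable (fun t : ℝ => q (l - t)) := hqm.comp (measurable_const.sub measurable_id)
        fun_prop
      · rw [ae_restrict_iff' measurableSet_Ioi]
        filter_upwards with t ht
        rw [Real.norm_eq_abs]; exact hlip t ht
    have hi2 : IntegrableOn (fun t => l ^ β * q (l - t)) (Ioi 0) :=
      ((hql l).const_mul _).integrableOn
    have hsplit : Ψ l - l ^ β * I l = ∫ t in Ioi (0 : ℝ), (t ^ β - l ^ β) * q (l - t) := by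
      have e : Ψ l = ∫ t in Ioi (0 : ℝ), ((t ^ β - l ^ β) * q (l - t) + l ^ β * q (l - t)) := by
        simp only [hΨ]
        congr 1; ext t; ring
      rw [e, integral_add hi1 hi2, integral_const_mul]
      simp only [hI]; ring
    rw [hsplit]
    calc |∫ t in Ioi (0 : ℝ), (t ^ β - l ^ β) * q (l - t)|
        ≤ ∫ t in Ioi (0 : ℝ), l ^ (β - 1) * (|l - t| * |q (l - t)|) := by
          rw [← Real.norm_eq_abs]
          apply norm_integral_le_of_norm_le
          · exact ((hwql l).const_mul _).integrableOn
          · rw [ae_restrict_iff' measurableSet_Ioi]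
            filter_upwards with t ht
            rw [Real.norm_eq_abs]; exact hlip t ht
      _ ≤ ∫ t, l ^ (β - 1) * (|l - t| * |q (l - t)|) := by
          apply setIntegral_le_integral ((hwql l).const_mul _)
          filter_upwards with t
          have := Real.rpow_pos_of_pos hl (β - 1)
          positivity
      _ = l ^ (β - 1) * M := by
          rw [integral_const_mul, hM]
          congr 1
          exact integral_sub_left_eq_self (fun w => |w| * |q w|) volume l
  have hId : ∀ l, 0 < l → |I l - J0| ≤ C * Real.exp (-l) := by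
    intro l hl
    have e1 : J0 = ∫ t, q (l - t) := (integral_sub_left_eq_self q volume l).symm
    have e2 : ∫ t, q (l - t) = (∫ t in Iic (0 : ℝ), q (l - t)) + I l := by
      simp only [hI]
      rw [← setIntegral_univ, ← Iic_union_Ioi (a := (0 : ℝ)),
        setIntegral_union (Iic_disjoint_Ioi le_rfl) measurableSet_Ioi (hql l).integrableOn
          (hql l).integrableOn]
    rw [e1, e2]
    have e3 : I l - ((∫ t in Iic (0 : ℝ), q (l - t)) + I l) = - ∫ t in Iic (0 : ℝ), q (l - t) := by
      ring
    rw [e3, abs_neg, ← Real.norm_eq_abs]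
    calc ‖∫ t in Iic (0 : ℝ), q (l - t)‖ ≤ ∫ t in Iic (0 : ℝ), (C * Real.exp (-l)) * Real.exp t := by
          apply norm_integral_le_of_norm_le
          · exact (integrableOn_exp_Iic 0).const_mul _
          · rw [ae_restrict_iff' measurableSet_Iic]
            filter_upwards with t ht
            have ht' : t ≤ 0 := ht
            rw [Real.norm_eq_abs]
            refine (hC (l - t)).trans (le_of_eq ?_)
            rw [abs_of_nonneg (by linarith), mul_assoc, ← Real.exp_add]; ring_nf
      _ = C * Real.exp (-l) := by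
          rw [integral_const_mul, integral_exp_Iic_zero, mul_one]
  have hg0 : Tendsto (fun l => gg α (Real.exp l)) atTop (nhds 0) := by
    apply squeeze_zero_norm' (a := fun l => C * Real.exp (-l))
    · filter_upwards [eventually_gt_atTop 0] with l hl
      have h := hC l
      rw [abs_mul, abs_of_pos (Real.exp_pos l), abs_of_pos hl] at h
      rw [Real.norm_eq_abs]
      have h1 : 1 ≤ Real.exp l := Real.one_le_exp hl.le
      nlinarith [abs_nonneg (gg α (Real.exp l))]
    · have := (Real.tendsto_exp_neg_atTop_nhds_zero).const_mul C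
      simpa using this
  have hΨlim : Tendsto Ψ atTop (nhds (Real.Gamma α)) := by
    have : Ψ = fun l => Real.Gamma α * (1 - gg α (Real.exp l)) := funext hΨeq
    rw [this]
    have h := (hg0.const_sub 1).const_mul (Real.Gamma α)
    simpa using h
  have hb1 : Tendsto (fun l : ℝ => l ^ (β - 1) * M) atTop (nhds 0) := by
    have h := (tendsto_rpow_neg_atTop (show 0 < 1 - β by linarith)).mul_const M
    simpa using h
  -- J0 = 0
  have hJ : J0 = 0 := by
    have hI0 : Tendsto I atTop (nhds 0) := by
      have hdiff : Tendsto (fun l => l ^ (-β) * Ψ l - I l) atTop (nhds 0) := by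
        apply squeeze_zero_norm' (a := fun l : ℝ => l ^ (-(1:ℝ)) * M)
        · filter_upwards [eventually_gt_atTop 0] with l hl
          have h := hcomp l hl
          have hp : 0 < l ^ (-β) := Real.rpow_pos_of_pos hl _
          have e1 : l ^ (-β) * Ψ l - I l = l ^ (-β) * (Ψ l - l ^ β * I l) := by
            have : l ^ (-β) * l ^ β = 1 := by rw [← Real.rpow_add hl]; simp
            linear_combination I l * this
          rw [e1, Real.norm_eq_abs, abs_mul, abs_of_pos hp]
          refine (mul_le_mul_of_nonneg_left h hp.le).trans (le_of_eq ?_)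
          rw [← mul_assoc, ← Real.rpow_add hl]; congr 2; ring
        · have h := (tendsto_rpow_neg_atTop (show (0:ℝ) < 1 by norm_num)).mul_const M
          simpa using h
      have hprod : Tendsto (fun l => l ^ (-β) * Ψ l) atTop (nhds 0) := by
        have h := (tendsto_rpow_neg_atTop hβ0).mul hΨlim
        simpa using h
      have := hprod.sub hdiff
      simpa using this
    have hIJ : Tendsto (fun l => I l - J0) atTop (nhds 0) := by
      apply squeeze_zero_norm' (a := fun l => C * Real.exp (-l))
      · filter_upwards [eventually_gt_atTop 0] with l hl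
        rw [Real.norm_eq_abs]; exact hId l hl
      · have := (Real.tendsto_exp_neg_atTop_nhds_zero).const_mul C
        simpa using this
    have h3 : Tendsto (fun l => I l - J0) atTop (nhds (0 - J0)) := hI0.sub_const J0
    have := tendsto_nhds_unique h3 hIJ
    linarith
  have hΨ0 : Tendsto Ψ atTop (nhds 0) := by
    apply squeeze_zero_norm' (a := fun l : ℝ => l ^ (β - 1) * M + C * (l ^ β * Real.exp (-1 * l)))
    · filter_upwards [eventually_gt_atTop 0] with l hl
      have h := hcomp l hl
      have h3 := hId l hl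
      rw [hJ, sub_zero] at h3
      have hp : 0 < l ^ β := Real.rpow_pos_of_pos hl _
      have e1 : Ψ l = (Ψ l - l ^ β * I l) + l ^ β * I l := by ring
      rw [e1, Real.norm_eq_abs]
      refine (abs_add_le _ _).trans ?_
      rw [abs_mul, abs_of_pos hp]
      have := mul_le_mul_of_nonneg_left h3 hp.le
      rw [neg_one_mul]
      linarith
    · have h4 := (tendsto_rpow_mul_exp_neg_mul_atTop_nhds_zero β 1 one_pos).const_mul C
      have := hb1.add h4
      simpa using this
  have := tendsto_nhds_unique hΨlim hΨ0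
  exact (Real.Gamma_pos_of_pos (by linarith)).ne' this

end H775R2.RR
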