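import Pool.Agent.H775R2.RR.Basic

namespace H775R2.RR

open Polynomial

lemma realRooted_mul {p q : ℝ[X]} (hp : ∀ z : ℂ, aeval z p = 0 → z.im = 0)
    (hq : ∀ z : ℂ, aeval z q = 0 → z.im = 0) : ∀ z : ℂ, aeval z (p * q) = 0 → z.im = 0 := by
  intro z hz
  rw [map_mul] at hz
  rcases mul_eq_zero.1 hz with h | h
  · exact hp z h
  · exact hq z h

lemma realRooted_pow {p : ℝ[X]} (hp : ∀ z : ℂ, aeval z p = 0 → z.im = 0) (n : ℕ) :
    ∀ z : ℂ, aeval z (p ^ n) = 0 → z.im = 0 := by
  intro z hz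
  rw [map_pow] at hz
  exact hp z (eq_zero_of_pow_eq_zero hz)

lemma realRooted_C {c : ℝ} (hc : 0 < c) : ∀ z : ℂ, aeval z (C c) = 0 → z.im = 0 := by
  intro z hz
  rw [aeval_C] at hz
  simp at hz
  exact absurd hz hc.ne'

lemma realRooted_lin {a : ℝ} (ha : 0 < a) :
    ∀ z : ℂ, aeval z (1 + C a * X : ℝ[X]) = 0 → z.im = 0 := by
  intro z hz
  simp only [map_add, map_one, map_mul, aeval_C, aeval_X] at hz
  have h2 := congrArg Complex.im hz
  simp at h2
  rcases h2 with h | h
  · exact absurd h ha.ne'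
  · exact h

lemma PosCoeffs.ne_zero {p : ℝ[X]} (h : PosCoeffs p) : p ≠ 0 := by
  rintro rfl
  have := h 0 (by simp)
  simp at this

lemma PosCoeffs.nonneg {p : ℝ[X]} (h : PosCoeffs p) (k : ℕ) : 0 ≤ p.coeff k := by
  by_cases hk : k ≤ p.natDegree
  · exact (h k hk).le
  · rw [coeff_eq_zero_of_natDegree_lt (by omega)]

lemma PosCoeffs.mul {p q : ℝ[X]} (hp : PosCoeffs p) (hq : PosCoeffs q) : PosCoeffs (p * q) := by
  intro k hk
  rw [natDegree_mul hp.ne_zero hq.ne_zero] at hk
  rw [coeff_mul]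
  apply Finset.sum_pos'
  · intro x _
    exact mul_nonneg (hp.nonneg _) (hq.nonneg _)
  · refine ⟨(min k p.natDegree, k - min k p.natDegree), ?_, ?_⟩
    · rw [Finset.HasAntidiagonal.mem_antidiagonal]; simp
    · apply mul_pos
      · exact hp _ (min_le_right _ _)
      · apply hq
        rcases le_total k p.natDegree with h | h
        · simp [min_eq_left h]
        · rw [min_eq_right h]; omega

lemma posCoeffs_C {c : ℝ} (hc : 0 < c) : PosCoeffs (C c) := by
  intro k hk
  have : k = 0 := by simpa using hk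
  subst this; simpa using hc

lemma posCoeffs_lin {a : ℝ} (ha : 0 < a) : PosCoeffs (1 + C a * X : ℝ[X]) := by
  intro k hk
  have hd : (1 + C a * X : ℝ[X]).natDegree ≤ 1 := by
    apply natDegree_add_le_of_degree_le
    · simp
    · exact (natDegree_C_mul_le _ _).trans natDegree_X_le
  have hk1 : k ≤ 1 := hk.trans hd
  interval_cases k
  · simp
  · simp [coeff_one, ha]

lemma posCoeffs_pow {p : ℝ[X]} (hp : PosCoeffs p) (n : ℕ) : PosCoeffs (p ^ n) := by
  induction n with
  | zero =>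
    rw [pow_zero]
    have : (1 : ℝ[X]) = C 1 := by simp
    rw [this]; exact posCoeffs_C one_pos
  | succ n ih => rw [pow_succ]; exact ih.mul hp

lemma coeff_lin_pow (a : ℝ) (n k : ℕ) :
    ((1 + C a * X : ℝ[X]) ^ n).coeff k = (n.choose k : ℝ) * a ^ k := by
  have : ((1 + C a * X : ℝ[X]) ^ n) = ((1 + X : ℝ[X]) ^ n).comp (C a * X) := by
    simp
  rw [this, comp_C_mul_X_coeff, coeff_one_add_X_pow]

/-- Any triple with `u * w < v ^ 2` occurs as three consecutive coefficients of a real-rooted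
polynomial with positive coefficients. -/
lemma realise {u v w : ℝ} (hu : 0 < u) (hv : 0 < v) (hw : 0 < w) (h : u * w < v ^ 2) :
    ∃ (p : ℝ[X]) (k : ℕ), PosCoeffs p ∧ RealRooted p ∧ p.coeff k = u ∧ p.coeff (k + 1) = v ∧
      p.coeff (k + 2) = w := by
  set Q : ℝ := v ^ 2 / (u * w) with hQ
  have hQ1 : 1 < Q := by rw [hQ, one_lt_div (by positivity)]; exact h
  -- choose m
  obtain ⟨m, hm⟩ : ∃ m : ℕ, (1 + 1 / ((m : ℝ) + 1)) ^ 2 ≤ Q := by
    have hc : Filter.Tendsto (fun n : ℕ => (1 + 1 / ((n : ℝ) + 1)) ^ 2) Filter.atTop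
        (nhds ((1 + 0) ^ 2)) :=
      (tendsto_one_div_add_atTop_nhds_zero_nat.const_add 1).pow 2
    have := hc.eventually (gt_mem_nhds (show ((1 : ℝ) + 0) ^ 2 < Q by simpa using hQ1))
    obtain ⟨n, hn⟩ := this.exists
    exact ⟨n, hn.le⟩
  set M := m + 1 with hM
  let f : ℕ → ℝ → ℝ := fun k t => ((1 + C 1 * X : ℝ[X]) ^ M * (1 + C t * X) ^ M).coeff k
  have hf : ∀ k t, f k t = ∑ x ∈ Finset.HasAntidiagonal.antidiagonal k,
      ((M.choose x.1 : ℝ) * 1 ^ x.1) * ((M.choose x.2 : ℝ) * t ^ x.2) := by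
    intro k t
    show coeff _ _ = _
    rw [coeff_mul]
    apply Finset.sum_congr rfl
    intro x _
    rw [coeff_lin_pow, coeff_lin_pow]
  have hcont : ∀ k, Continuous (f k) := by
    intro k
    have : f k = fun t => ∑ x ∈ Finset.HasAntidiagonal.antidiagonal k,
      ((M.choose x.1 : ℝ) * 1 ^ x.1) * ((M.choose x.2 : ℝ) * t ^ x.2) := funext (hf k)
    rw [this]
    fun_prop
  have hf0 : ∀ k, f k 0 = (M.choose k : ℝ) := by
    intro k
    show coeff _ _ = _
    simp only [map_zero, zero_mul, add_zero, one_pow, mul_one]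
    rw [coeff_lin_pow]; simp
  have hf1 : ∀ k, f k 1 = ((2 * M).choose k : ℝ) := by
    intro k
    show coeff _ _ = _
    rw [← pow_add, ← two_mul, coeff_lin_pow]; simp
  set ψ : ℝ → ℝ := fun t => f M t ^ 2 - Q * (f m t * f (M + 1) t) with hψ
  have hψc : ContinuousOn ψ (Set.Icc 0 1) := by
    apply Continuous.continuousOn
    have h1 := hcont M; have h2 := hcont m; have h3 := hcont (M+1)
    simp only [hψ]
    fun_prop
  have hψ0 : ψ 0 = 1 := by
    simp only [hψ, hf0]
    simp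
  have hψ1 : ψ 1 ≤ 0 := by
    simp only [hψ, hf1]
    have e1 : ((2 * M).choose (M + 1) : ℝ) * (M + 1) = ((2 * M).choose M : ℝ) * M := by
      have := Nat.choose_succ_right_eq (2 * M) M
      have h2 : 2 * M - M = M := by omega
      rw [h2] at this
      exact_mod_cast this
    have e2 : ((2 * M).choose M : ℝ) * M = ((2 * M).choose m : ℝ) * (M + 1) := by
      have := Nat.choose_succ_right_eq (2 * M) m
      have h2 : 2 * M - m = M + 1 := by omega
      rw [h2] at this
      have h3 : m + 1 = M := rfl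
      rw [h3] at this
      exact_mod_cast this
    have hMpos : (0 : ℝ) < M := by rw [hM]; push_cast; positivity
    set c := ((2 * M).choose M : ℝ)
    have hcp : 0 ≤ c := by positivity
    have e1' : ((2 * M).choose (M + 1) : ℝ) = c * M / (M + 1) := by
      rw [eq_div_iff (by positivity)]; exact e1
    have e2' : ((2 * M).choose m : ℝ) = c * M / (M + 1) := by
      rw [eq_div_iff (by positivity)]; exact e2.symm
    rw [e1', e2']
    have hm' : ((M : ℝ) + 1) ^ 2 ≤ Q * M ^ 2 := by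
      have : (1 + 1 / ((m : ℝ) + 1)) = (M + 1) / M := by
        rw [hM]; push_cast; field_simp
      rw [this, div_pow, div_le_iff₀ (by positivity)] at hm
      exact hm
    have : c ^ 2 - Q * (c * M / (M + 1) * (c * M / (M + 1)))
        = c ^ 2 * (((M : ℝ) + 1) ^ 2 - Q * M ^ 2) / (M + 1) ^ 2 := by
      field_simp
    rw [this]
    apply div_nonpos_of_nonpos_of_nonneg
    · apply mul_nonpos_of_nonneg_of_nonpos (by positivity); linarith
    · positivity
  obtain ⟨t, ht, hψt⟩ : (0 : ℝ) ∈ ψ '' Set.Icc 0 1 :=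
    intermediate_value_Icc' zero_le_one hψc ⟨hψ1, by rw [hψ0]; norm_num⟩
  have ht0 : 0 < t := by
    rcases eq_or_lt_of_le ht.1 with h0 | h0
    · exfalso; rw [← h0, hψ0] at hψt; norm_num at hψt
    · exact h0
  -- positivity of the coefficients
  have hpos : ∀ k ≤ 2 * M, 0 < f k t := by
    have hp : PosCoeffs ((1 + C 1 * X : ℝ[X]) ^ M * (1 + C t * X) ^ M) :=
      (posCoeffs_pow (posCoeffs_lin one_pos) M).mul (posCoeffs_pow (posCoeffs_lin ht0) M)
    have hdeg1 : ∀ a : ℝ, a ≠ 0 → (1 + C a * X : ℝ[X]).natDegree = 1 := by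
      intro a ha
      have : (1 + C a * X : ℝ[X]) = C a * X + C 1 := by simp [add_comm]
      rw [this, natDegree_linear ha]
    have hd : ((1 + C 1 * X : ℝ[X]) ^ M * (1 + C t * X) ^ M).natDegree = 2 * M := by
      rw [natDegree_mul (posCoeffs_pow (posCoeffs_lin one_pos) M).ne_zero
        (posCoeffs_pow (posCoeffs_lin ht0) M).ne_zero, natDegree_pow, natDegree_pow,
        hdeg1 1 one_ne_zero, hdeg1 t ht0.ne']
      ring
    intro k hk
    exact hp k (by rw [hd]; exact hk)
  set a := f m t with ha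
  set b := f M t with hb
  set d := f (M + 1) t with hd
  have ha0 : 0 < a := hpos _ (by omega)
  have hb0 : 0 < b := hpos _ (by omega)
  have hd0 : 0 < d := hpos _ (by omega)
  have hbe : b ^ 2 = Q * (a * d) := by
    have : b ^ 2 - Q * (a * d) = 0 := hψt
    linarith
  set l : ℝ := (v / u) * (a / b) with hl
  have hl0 : 0 < l := by positivity
  set c : ℝ := u / (a * l ^ m) with hc
  have hc0 : 0 < c := by positivity
  refine ⟨C c * ((1 + C (l * 1) * X) ^ M * (1 + C (l * t) * X) ^ M), m, ?_, ?_, ?_, ?_, ?_⟩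
  · exact (posCoeffs_C hc0).mul ((posCoeffs_pow (posCoeffs_lin (by positivity)) M).mul
      (posCoeffs_pow (posCoeffs_lin (by positivity)) M))
  · right
    exact realRooted_mul (realRooted_C hc0) (realRooted_mul
      (realRooted_pow (realRooted_lin (by positivity)) M)
      (realRooted_pow (realRooted_lin (by positivity)) M))
  all_goals
    have hcoef : ∀ k, ((1 + C (l * 1) * X : ℝ[X]) ^ M * (1 + C (l * t) * X) ^ M).coeff k
        = l ^ k * f k t := by
      intro k
      rw [hf, coeff_mul, Finset.mul_sum]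
      apply Finset.sum_congr rfl
      intro x hx
      rw [coeff_lin_pow, coeff_lin_pow, ← Finset.HasAntidiagonal.mem_antidiagonal.1 hx, mul_pow, mul_pow]
      ring
    rw [coeff_C_mul, hcoef]
  · rw [hc]; field_simp; rfl
  · have : l ^ (m + 1) * f (m + 1) t = l ^ m * (l * b) := by rw [pow_succ]; ring
    rw [this, hc, hl]; field_simp
  · have : l ^ (m + 2) * f (m + 2) t = l ^ m * (l ^ 2 * d) := by
      rw [pow_add]; ring
    rw [this, hc]
    have h3 : u / (a * l ^ m) * (l ^ m * (l ^ 2 * d)) = u * l ^ 2 * d / a := by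
      field_simp
    rw [h3, hl, mul_pow, div_pow, div_pow, hbe, hQ]
    field_simp

variable {F : ℝ → ℝ}

lemma coeffMap_nonneg (hF : ∀ t, 0 ≤ t → 0 ≤ F t) (h0 : F 0 = 0) {p : ℝ[X]} (hp : PosCoeffs p)
    (k : ℕ) : 0 ≤ (coeffMap F p).coeff k := by
  rw [coeffMap_coeff F h0]; exact hF _ (hp.nonneg k)

/-- the `2 × 2` minors of the image sequence -/
lemma image_tp2 (hF : ∀ t, 0 ≤ t → 0 ≤ F t) (h0 : F 0 = 0) (hpres : Preserves F) {p : ℝ[X]}
    (hp : PosCoeffs p) (hr : RealRooted p) (i j : ℕ) (hij : i ≤ j) :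
    F (p.coeff i) * F (p.coeff (j + 2)) ≤ F (p.coeff (i + 1)) * F (p.coeff (j + 1)) := by
  have h1 := TP2_of_realRooted _ (hpres p hp hr) (coeffMap_nonneg hF h0 hp)
  have h2 := h1.2 ((i : ℤ) + 1) ((j : ℤ) + 1) (by omega)
  have e1 : (i : ℤ) + 1 - 1 = (i : ℤ) := by ring
  have e2 : (j : ℤ) + 1 + 1 = ((j + 2 : ℕ) : ℤ) := by push_cast; ring
  have e3 : (i : ℤ) + 1 = ((i + 1 : ℕ) : ℤ) := by push_cast; ring
  have e4 : (j : ℤ) + 1 = ((j + 1 : ℕ) : ℤ) := by push_cast; ring
  rw [e1, e2, e3, e4, cz_nat, cz_nat, cz_nat, cz_nat, coeffMap_coeff F h0, coeffMap_coeff F h0,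
    coeffMap_coeff F h0, coeffMap_coeff F h0] at h2
  exact h2

lemma newton (hF : ∀ t, 0 ≤ t → 0 ≤ F t) (h0 : F 0 = 0) (hpres : Preserves F) {u v w : ℝ}
    (hu : 0 < u) (hv : 0 < v) (hw : 0 < w) (h : u * w < v ^ 2) : F u * F w ≤ F v ^ 2 := by
  obtain ⟨p, k, hp, hr, h1, h2, h3⟩ := realise hu hv hw h
  have := image_tp2 hF h0 hpres hp hr k k le_rfl
  rw [h1, h2, h3] at this
  rw [sq]; exact this

lemma mono (hF : ∀ t, 0 ≤ t → 0 ≤ F t) (h0 : F 0 = 0) (hpres : Preserves F) {u v : ℝ}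
    (hu : 0 < u) (huv : u ≤ v) : F u ≤ F v := by
  rcases eq_or_lt_of_le huv with rfl | hlt
  · exact le_rfl
  · have hv := hu.trans hlt
    have := newton hF h0 hpres hu hv hu (by nlinarith)
    have h1 := hF u hu.le
    have h2 := hF v hv.le
    nlinarith

end H775R2.RR
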