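import Pool.Agent.H775R2.RR.Gap

namespace H775R2.RR

open Polynomial

variable {F : ℝ → ℝ}

/-- The gap lemma: multiplicative midpoint convexity. -/
lemma gap (hF : ∀ t, 0 ≤ t → 0 ≤ F t) (h0 : F 0 = 0) (hpres : Preserves F) {t l : ℝ}
    (ht : 0 < t) (hl : 1 < l) : F t ^ 2 ≤ F (t / l) * F (t * l) := by
  by_contra hcon
  push Not at hcon
  have hl0 : 0 < l := by linarith
  set A := F t with hA
  set B := F (t * l) with hB
  set C0 := F (t / l) with hC0
  have hC0n : 0 ≤ C0 := hF _ (by positivity)
  have hBn : 0 ≤ B := hF _ (by positivity)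
  have hAn : 0 ≤ A := hF _ ht.le
  have hApos : 0 < A := by
    rcases eq_or_lt_of_le hAn with h | h
    · rw [← h] at hcon; linarith [mul_nonneg hC0n hBn]
    · exact h
  have hAB : A ≤ B := mono hF h0 hpres ht (le_mul_of_one_le_right ht.le hl.le)
  have hBpos : 0 < B := hApos.trans_le hAB
  obtain ⟨r, hr1, hr2⟩ : ∃ r, C0 / A < r ∧ r < A / B := by
    apply exists_between
    rw [div_lt_div_iff₀ hApos hBpos]; linarith
  have hr0 : 0 < r := (div_nonneg hC0n hApos.le).trans_lt hr1
  have hrlt1 : r < 1 := hr2.trans_le ((div_le_one hBpos).2 hAB)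
  set q := max (B / A * r) (C0 / A / r) with hq
  have hq0 : 0 ≤ q := le_max_of_le_left (by positivity)
  have hq1 : q < 1 := by
    rw [hq, max_lt_iff]
    constructor
    · rw [lt_div_iff₀ hBpos] at hr2
      rw [div_mul_eq_mul_div, div_lt_one hApos]; linarith
    · rw [div_lt_one hr0]; exact hr1
  obtain ⟨K, hK0, hK⟩ := central_sum hq0 hq1
  obtain ⟨m, hm⟩ := exists_nat_gt ((2 + 2 / r * K) * (1 + l) / (l - 1))
  have hl1 : 0 < l - 1 := by linarith
  have hmpos : (0 : ℝ) < m := lt_of_le_of_lt (by positivity) hm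
  have hm1 : 1 ≤ m := by exact_mod_cast hmpos
  have hm' : (2 + 2 / r * K) * (1 + l) < m * (l - 1) := by
    rwa [div_lt_iff₀ hl1] at hm
  set μ : ℝ := l * (m + 1) / m with hμ
  have hμ0 : 0 < μ := by positivity
  have hμl : l ≤ μ := by
    rw [hμ, le_div_iff₀ hmpos]; linarith
  have hch : (0 : ℝ) < ((2 * m).choose m : ℝ) := by
    exact_mod_cast Nat.choose_pos (by omega)
  set c : ℝ := t / (((2 * m).choose m : ℝ) * μ ^ m) with hc
  have hc0 : 0 < c := by positivity
  set p : ℝ[X] := C c * (1 + C μ * X) ^ (2 * m) with hp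
  have hpp : PosCoeffs p := (posCoeffs_C hc0).mul (posCoeffs_pow (posCoeffs_lin hμ0) _)
  have hpr : RealRooted p := Or.inr (realRooted_mul (realRooted_C hc0)
    (realRooted_pow (realRooted_lin hμ0) _))
  set a : ℕ → ℝ := fun k => c * (((2 * m).choose k : ℝ) * μ ^ k) with ha
  have hacoef : ∀ k, p.coeff k = a k := by
    intro k; rw [hp, coeff_C_mul, coeff_lin_pow]
  have hapos : ∀ k ≤ 2 * m, 0 < a k := by
    intro k hk
    have : (0 : ℝ) < ((2 * m).choose k : ℝ) := by exact_mod_cast Nat.choose_pos hk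
    simp only [ha]; positivity
  have haz : ∀ k, 2 * m < k → a k = 0 := by
    intro k hk; simp only [ha]; rw [Nat.choose_eq_zero_of_lt hk]; simp
  have hann : ∀ k, 0 ≤ a k := by
    intro k
    rcases le_or_gt k (2 * m) with h | h
    · exact (hapos k h).le
    · rw [haz k h]
  have hrec : ∀ k, k ≤ 2 * m → a (k + 1) * (k + 1) = a k * (μ * ((2 * m : ℝ) - k)) := by
    intro k hk
    have h1 := Nat.choose_succ_right_eq (2 * m) k
    have h2 : ((2 * m).choose (k + 1) : ℝ) * (k + 1) = ((2 * m).choose k : ℝ) * ((2 * m : ℝ) - k) := by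
      have h3 : (((2 * m).choose (k + 1) * (k + 1) : ℕ) : ℝ)
          = (((2 * m).choose k * (2 * m - k) : ℕ) : ℝ) := by rw [h1]
      rw [Nat.cast_mul, Nat.cast_mul, Nat.cast_sub hk] at h3
      push_cast at h3
      exact h3
    simp only [ha]
    have : c * (((2 * m).choose (k + 1) : ℝ) * μ ^ (k + 1)) * (k + 1)
        = c * μ ^ (k + 1) * (((2 * m).choose (k + 1) : ℝ) * (k + 1)) := by ring
    rw [this, h2]; ring
  have ham : a m = t := by
    simp only [ha, hc]; field_simp
  have ham1 : a (m + 1) = t * l := by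
    have h1 := hrec m (by omega)
    rw [ham] at h1
    have h2 : t * (μ * ((2 * m : ℝ) - m)) = t * l * (m + 1) := by
      rw [hμ]; field_simp; ring
    rw [h2] at h1
    exact mul_right_cancel₀ (by positivity) h1
  have hamm : a (m - 1) ≤ t / l := by
    have h1 := hrec (m - 1) (by omega)
    have e : m - 1 + 1 = m := by omega
    rw [e, ham, Nat.cast_sub hm1, Nat.cast_one] at h1
    have h2 : t * ((m : ℝ) - 1 + 1) = a (m - 1) * (μ * (m + 1)) := by
      rw [h1]; ring
    rw [le_div_iff₀ hl0]
    have h3 := hann (m - 1)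
    have h4 : a (m - 1) * l * (m + 1) ≤ t * (m + 1) := by
      have : a (m - 1) * l ≤ a (m - 1) * μ := mul_le_mul_of_nonneg_left hμl h3
      have h5 := mul_le_mul_of_nonneg_right this (show (0 : ℝ) ≤ (m : ℝ) + 1 by positivity)
      linarith
    exact le_of_mul_le_mul_right h4 (by positivity)
  set P := coeffMap F p with hP
  set w : ℕ → ℝ := fun k => F (a k) with hw
  have hPc : ∀ k, P.coeff k = w k := by
    intro k; rw [hP, coeffMap_coeff F h0, hacoef]
  have hwn : ∀ k, 0 ≤ w k := fun k => hF _ (hann k)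
  have hwz : ∀ k, 2 * m + 1 ≤ k → w k = 0 := by
    intro k hk; simp only [hw]; rw [haz k (by omega), h0]
  have htp : ∀ i j, i ≤ j → w i * w (j + 2) ≤ w (i + 1) * w (j + 1) := by
    intro i j hij
    have := image_tp2 hF h0 hpres hpp hpr i j hij
    simpa only [hacoef] using this
  have hwm : w m = A := by simp only [hw]; rw [ham]
  have hwm1 : w (m + 1) = B := by simp only [hw]; rw [ham1]
  have hwmm : w (m - 1) ≤ C0 := by
    simp only [hw]
    exact mono hF h0 hpres (hapos _ (by omega)) hamm
  -- geometric decay to the right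
  have hright : ∀ j, w (m + j) * r ^ (m + j) ≤ A * r ^ m * q ^ j := by
    intro j
    induction j with
    | zero => simp [hwm]
    | succ j ih =>
      have h1 : w (m + (j + 1)) ≤ w (m + j) * (B / A) := by
        have : w (m + (j + 1)) * A ≤ w (m + j) * B := by
          rcases j with _ | j
          · simp only [zero_add, add_zero]; rw [hwm, hwm1]; linarith
          · have := htp m (m + j) (by omega)
            rw [hwm, hwm1] at this
            have e1 : m + (j + 1 + 1) = m + j + 2 := by ring
            have e2 : m + (j + 1) = m + j + 1 := by ring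
            rw [e1, e2]; linarith
        rw [← mul_div_assoc, le_div_iff₀ hApos]; exact this
      have h2 : w (m + (j + 1)) * r ^ (m + (j + 1)) ≤ (B / A * r) * (w (m + j) * r ^ (m + j)) := by
        have e : r ^ (m + (j + 1)) = r ^ (m + j) * r := by rw [← pow_succ]; ring_nf
        rw [e]
        have := mul_le_mul_of_nonneg_right h1 (show 0 ≤ r ^ (m + j) * r by positivity)
        linarith
      have h3 : (B / A * r) * (w (m + j) * r ^ (m + j)) ≤ q * (w (m + j) * r ^ (m + j)) :=
        mul_le_mul_of_nonneg_right (le_max_left _ _) (mul_nonneg (hwn _) (by positivity))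
      have h4 := mul_le_mul_of_nonneg_left ih hq0
      rw [pow_succ]; linarith
  have hleft : ∀ j ≤ m, w (m - j) * r ^ (m - j) ≤ A * r ^ m * q ^ j := by
    intro j
    induction j with
    | zero => intro _; simp [hwm]
    | succ j ih =>
      intro hj
      have ih' := ih (by omega)
      have h1 : w (m - (j + 1)) ≤ w (m - j) * (C0 / A) := by
        have : w (m - (j + 1)) * A ≤ w (m - j) * C0 := by
          rcases j with _ | j
          · simp only [zero_add, Nat.sub_zero]; rw [hwm, mul_comm]
            exact mul_le_mul_of_nonneg_left hwmm hAn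
          · have := htp (m - (j + 1 + 1)) (m - 2) (by omega)
            have e1 : m - 2 + 2 = m := by omega
            have e2 : m - (j + 1 + 1) + 1 = m - (j + 1) := by omega
            have e3 : m - 2 + 1 = m - 1 := by omega
            rw [e1, e2, e3, hwm] at this
            have := mul_le_mul_of_nonneg_left hwmm (hwn (m - (j + 1)))
            linarith
        rw [← mul_div_assoc, le_div_iff₀ hApos]; exact this
      have h2 : w (m - (j + 1)) * r ^ (m - (j + 1)) ≤ (C0 / A / r) * (w (m - j) * r ^ (m - j)) := by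
        have e : r ^ (m - j) = r ^ (m - (j + 1)) * r := by
          rw [← pow_succ]; congr 1; omega
        rw [e]
        have := mul_le_mul_of_nonneg_right h1 (show 0 ≤ r ^ (m - (j + 1)) by positivity)
        have e2 : C0 / A / r * (w (m - j) * (r ^ (m - (j + 1)) * r))
            = w (m - j) * (C0 / A) * r ^ (m - (j + 1)) := by field_simp
        rw [e2]; exact this
      have h3 : (C0 / A / r) * (w (m - j) * r ^ (m - j)) ≤ q * (w (m - j) * r ^ (m - j)) :=
        mul_le_mul_of_nonneg_right (le_max_right _ _) (mul_nonneg (hwn _) (by positivity))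
      have h4 := mul_le_mul_of_nonneg_left ih' hq0
      rw [pow_succ]; linarith
  have hcen := hK m (fun k => w k * r ^ k) (A * r ^ m) (by positivity) hright hleft
  -- evaluation formulas
  have hPz : ∀ k, 2 * m + 1 ≤ k → P.coeff k = 0 := by intro k hk; rw [hPc, hwz k hk]
  have hev : ∀ x, eval x P = ∑ k ∈ Finset.range (2 * m + 1), w k * x ^ k := by
    intro x
    rw [eval_sum hPz]
    exact Finset.sum_congr rfl (fun k _ => by rw [hPc])
  have hev1 : ∀ x, eval x (eu P) = ∑ k ∈ Finset.range (2 * m + 1), (k : ℝ) * (w k * x ^ k) := by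
    intro x
    rw [eval_sum (P := eu P) (N := 2 * m + 1) (fun k hk => by rw [eu_coeff, hPz k hk, mul_zero])]
    exact Finset.sum_congr rfl (fun k _ => by rw [eu_coeff, hPc]; ring)
  have hev2 : ∀ x, eval x (eu (eu P))
      = ∑ k ∈ Finset.range (2 * m + 1), (k : ℝ) ^ 2 * (w k * x ^ k) := by
    intro x
    rw [eval_sum (P := eu (eu P)) (N := 2 * m + 1)
      (fun k hk => by rw [eu_coeff, eu_coeff, hPz k hk]; ring)]
    exact Finset.sum_congr rfl (fun k _ => by rw [eu_coeff, eu_coeff, hPc]; ring)
  have hP0 : P ≠ 0 := by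
    intro h
    have := hPc m
    rw [h, hwm] at this
    simp at this
    exact hApos.ne this
  obtain ⟨hT1, hT2, hmean⟩ := mean_ineq P hP0 (hpres p hpp hpr)
    (fun k => by rw [hPc]; exact hwn k) hr0 (show r < 2 by linarith)
  set T := eval r P with hT
  have hTA : A * r ^ m ≤ T := by
    rw [hT, hev, ← hwm]
    exact Finset.single_le_sum (f := fun k => w k * r ^ k)
      (fun k _ => mul_nonneg (hwn k) (by positivity)) (Finset.mem_range.2 (by omega))
  -- the variance bound
  have hQ : eval r (eu (eu P)) - 2 * m * eval r (eu P) + m ^ 2 * T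
      = ∑ k ∈ Finset.range (2 * m + 1), ((k : ℝ) - m) ^ 2 * (w k * r ^ k) := by
    rw [hev2, hev1, hT, hev, Finset.mul_sum, Finset.mul_sum, ← Finset.sum_sub_distrib,
      ← Finset.sum_add_distrib]
    exact Finset.sum_congr rfl (fun k _ => by ring)
  have hQle : eval r (eu (eu P)) - 2 * m * eval r (eu P) + m ^ 2 * T ≤ T * K := by
    rw [hQ]; exact hcen.trans (mul_le_mul_of_nonneg_right hTA hK0)
  have hMle : eval r (eu P) - m * T ≤ T * K := by
    have : eval r (eu P) - m * T ≤ ∑ k ∈ Finset.range (2 * m + 1), ((k : ℝ) - m) ^ 2 * (w k * r ^ k) := by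
      rw [hev1, hT, hev, Finset.mul_sum, ← Finset.sum_sub_distrib]
      apply Finset.sum_le_sum
      intro k _
      have h1 : (k : ℝ) - m ≤ ((k : ℝ) - m) ^ 2 := by
        have : ((k : ℤ) - m) ≤ ((k : ℤ) - m) ^ 2 := Int.le_self_sq _
        exact_mod_cast this
      have h2 : 0 ≤ w k * r ^ k := mul_nonneg (hwn k) (by positivity)
      have h3 := mul_le_mul_of_nonneg_right h1 h2
      linarith
    exact this.trans (hcen.trans (mul_le_mul_of_nonneg_right hTA hK0))
  set E1 := eval r (eu P) / T with hE1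
  set E2 := eval r (eu (eu P)) / T with hE2
  have hE1T : eval r (eu P) = E1 * T := by rw [hE1]; field_simp
  have hE2T : eval r (eu (eu P)) = E2 * T := by rw [hE2]; field_simp
  have hV : E2 - E1 ^ 2 ≤ K := by
    rw [hE1T, hE2T] at hQle
    have : (E2 - 2 * m * E1 + m ^ 2) * T ≤ K * T := by linarith
    have := le_of_mul_le_mul_right this hT1
    linarith [sq_nonneg (E1 - m)]
  have hM : E1 - m ≤ K := by
    rw [hE1T] at hMle
    have : (E1 - m) * T ≤ K * T := by linarith
    exact le_of_mul_le_mul_right this hT1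
  -- the mean at 2
  set N := ⌊2 * (m : ℝ) * l / (1 + l)⌋₊ with hN
  have hNle : (N : ℝ) ≤ 2 * m * l / (1 + l) := Nat.floor_le (by positivity)
  have hNgt : 2 * (m : ℝ) * l / (1 + l) < N + 1 := Nat.lt_floor_add_one _
  have hN2m : N < 2 * m + 1 := by
    have : (N : ℝ) ≤ 2 * m := by
      refine hNle.trans ?_
      rw [div_le_iff₀ (by positivity)]; linarith
    have : N ≤ 2 * m := by exact_mod_cast this
    omega
  have hdouble : ∀ k < N, 2 * (w k * 2 ^ k) ≤ w (k + 1) * 2 ^ (k + 1) := by
    intro k hk
    have hk1 : ((k : ℝ) + 1) ≤ N := by exact_mod_cast hk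
    have hk2 : ((k : ℝ) + 1) * (1 + l) ≤ 2 * m * l := by
      have := hk1.trans hNle
      rwa [le_div_iff₀ (by positivity)] at this
    have hak : a k ≤ a (k + 1) := by
      have h1 := hrec k (by omega)
      have h2 : ((k : ℝ) + 1) ≤ μ * ((2 * m : ℝ) - k) := by
        have : (0 : ℝ) ≤ 2 * m - k := by
          have : (k : ℝ) ≤ 2 * m := by exact_mod_cast (show k ≤ 2 * m by omega)
          linarith
        have h5 := mul_le_mul_of_nonneg_right hμl this
        linarith
      have h3 : a k * (k + 1) ≤ a (k + 1) * (k + 1) := by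
        rw [h1]; exact mul_le_mul_of_nonneg_left h2 (hann k)
      exact le_of_mul_le_mul_right h3 (by positivity)
    have hwk : w k ≤ w (k + 1) := mono hF h0 hpres (hapos k (by omega)) hak
    have : (0 : ℝ) < 2 ^ k := by positivity
    have h6 := mul_le_mul_of_nonneg_right hwk this.le
    rw [pow_succ]; linarith
  have hmean2 : (N : ℝ) - 1 ≤ eval 2 (eu P) / eval 2 P := by
    rw [le_div_iff₀ hT2]
    have h1 := doubling' (fun k => w k * 2 ^ k) (fun k => mul_nonneg (hwn k) (by positivity)) N
      (2 * m + 1) hN2m hdouble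
    have h2 : ∑ k ∈ Finset.range (2 * m + 1), ((k : ℝ) - (N - 1)) * (w k * 2 ^ k)
        = eval 2 (eu P) - (N - 1) * eval 2 P := by
      rw [hev1, hev, Finset.mul_sum, ← Finset.sum_sub_distrib]
      exact Finset.sum_congr rfl (fun k _ => by ring)
    rw [h2] at h1; linarith
  have hfac : 0 < 2 / r - 1 := by
    rw [sub_pos, one_lt_div hr0]; linarith
  have hfin : (2 / r - 1) * (E2 - E1 ^ 2) ≤ (2 / r - 1) * K :=
    mul_le_mul_of_nonneg_left hV hfac.le
  have h1 : (N : ℝ) ≤ m + 1 + 2 / r * K := by linarith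
  have h2 : 2 * (m : ℝ) * l / (1 + l) < m + 2 + 2 / r * K := by linarith
  rw [div_lt_iff₀ (by positivity)] at h2
  linarith

end H775R2.RR
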